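import Pool.Agent.H34.CM.Defs
import Pool.Agent.H34.LS.V6

/-!
A1b: `point_edge` of CM/A1. With `a = π x / w` in `(3 π / 4, π)` and `b = π h / w`, `|b| ≤ 2 / 5`:
`cos (a + b) - cos a + b sin a = |cos a| (1 - cos b) + sin a (b - sin b)`.
-/

namespace Pool.Agent.H34.CM

open Pool.Agent.H34.LS

private theorem a1b_real {a b : ℝ} (ha1 : 3 * Real.pi / 4 ≤ a) (ha2 : a ≤ Real.pi)
    (hb : |b| ≤ 2 / 5) :
    Real.cos a - b * Real.sin a + (if b < 0 then b ^ 2 / 12 else 0) ≤ Real.cos (a + b) := by
  have hpi := Real.pi_pos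
  have hs0 : 0 ≤ Real.sin a := Real.sin_nonneg_of_nonneg_of_le_pi (by linarith) ha2
  have hc : Real.cos a ≤ -(7 / 10) := by
    have h1 : Real.cos a ≤ Real.cos (3 * Real.pi / 4) :=
      Real.cos_le_cos_of_nonneg_of_le_pi (by linarith) ha2 ha1
    have h2 : Real.cos (3 * Real.pi / 4) = -(Real.sqrt 2 / 2) := by
      have : 3 * Real.pi / 4 = Real.pi - Real.pi / 4 := by ring
      rw [this, Real.cos_pi_sub, Real.cos_pi_div_four]
    have h3 : (7 / 5 : ℝ) ≤ Real.sqrt 2 := by
      apply Real.le_sqrt_of_sq_le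
      norm_num
    rw [h2] at h1
    linarith
  have hs1 : Real.sin a ≤ 3 / 4 := by
    have h1 := Real.sin_sq_add_cos_sq a
    nlinarith
  have hb1 : |b| ≤ 1 := by linarith
  rw [Real.cos_add]
  have h2 := Real.cos_le_one b
  by_cases hb0 : b < 0
  · rw [if_pos hb0]
    have h3 := Real.sin_bound hb1
    have h4 := Real.cos_bound hb1
    have hbs : |b| = -b := abs_of_neg hb0
    have hq : |b| ^ 2 = b ^ 2 := sq_abs b
    have h0 := abs_nonneg b
    have hb2 : |b| ^ 2 ≤ 4 / 25 := by nlinarith
    -- cos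
    have h5 : b ^ 2 * (2 / 5) ≤ 1 - Real.cos b := by
      have h6 := (abs_le.1 h4).2
      have h7 : |b| ^ 4 = b ^ 2 * b ^ 2 := by
        rw [← hq]
        ring
      rw [h7] at h6
      rw [hq] at hb2
      nlinarith [sq_nonneg b]
    -- sin
    have h8 : Real.sin b - b ≤ b ^ 2 / 10 := by
      have h6 := (abs_le.1 h3).2
      have h7 : |b| ^ 5 = b ^ 2 * (|b| * b ^ 2) := by
        rw [← hq]
        ring
      have h9 : -(b ^ 3 / 6) ≤ b ^ 2 * (1 / 15) := by
        have : -(b ^ 3 / 6) = b ^ 2 * (-b / 6) := by ring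
        rw [this]
        exact mul_le_mul_of_nonneg_left (by linarith) (sq_nonneg b)
      have h10 : |b| * b ^ 2 ≤ 1 := by
        rw [← hq]
        nlinarith
      have h11 : |b| ^ 5 ≤ b ^ 2 * 1 := by
        rw [h7]
        exact mul_le_mul_of_nonneg_left h10 (sq_nonneg b)
      linarith [sq_nonneg b]
    have h9 : Real.sin a * (Real.sin b - b) ≤ 3 / 4 * (b ^ 2 / 10) := by
      rcases le_total 0 (Real.sin b - b) with h | h
      · exact mul_le_mul hs1 h8 h (by norm_num)
      · have := mul_nonpos_of_nonneg_of_nonpos hs0 h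
        nlinarith [sq_nonneg b]
    have h10 : 7 / 10 * (b ^ 2 * (2 / 5)) ≤ -Real.cos a * (1 - Real.cos b) :=
      mul_le_mul (by linarith) h5 (by positivity) (by linarith)
    nlinarith [sq_nonneg b]
  · rw [if_neg hb0]
    have hb0' : 0 ≤ b := not_lt.1 hb0
    have h8 : Real.sin b ≤ b := Real.sin_le hb0'
    have h9 : 0 ≤ Real.sin a * (b - Real.sin b) := mul_nonneg hs0 (by linarith)
    have h10 : 0 ≤ -Real.cos a * (1 - Real.cos b) := mul_nonneg (by linarith) (by linarith)
    nlinarith

theorem point_edge {w : ℕ} (hw : 1 ≤ w) {x h : ℤ} (hx : 3 * (w : ℤ) < 4 * x) (hx2 : x < (w : ℤ))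
    (hh : 8 * |h| ≤ (w : ℤ)) :
    psi w x ^ 2 - Real.pi / (2 * w) * Real.sin (Real.pi * x / w) * h +
      (if h < 0 then 1 / 6 * (Real.pi / (2 * w)) ^ 2 * (h : ℝ) ^ 2 else 0) ≤
        psi w (x + h) ^ 2 := by
  have hpi := Real.pi_pos
  have hw0 : (0 : ℝ) < w := by exact_mod_cast hw
  have hx0 : 0 < x := by omega
  have hxw : |x| ≤ (w : ℤ) := by
    rw [abs_of_pos hx0]
    exact hx2.le
  have hxr : 3 * (w : ℝ) ≤ 4 * (x : ℝ) := by exact_mod_cast hx.le
  have hxr2 : (x : ℝ) ≤ w := by exact_mod_cast hx2.le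
  have hxr0 : (0 : ℝ) < x := by exact_mod_cast hx0
  rcases le_or_gt (x + h) (w : ℤ) with hc | hc
  · have hxh : |x + h| ≤ (w : ℤ) := by
      have h1 := neg_abs_le h
      rw [abs_of_nonneg (by omega)]
      exact hc
    have e1 : psi w x ^ 2 = 1 / 2 + Real.cos (Real.pi * x / w) / 2 := by
      unfold psi
      rw [if_pos hxw, Real.cos_sq]
      congr 3
      field_simp
    have e2 : psi w (x + h) ^ 2 =
        1 / 2 + Real.cos (Real.pi * x / w + Real.pi * h / w) / 2 := by
      unfold psi
      rw [if_pos hxh, Real.cos_sq]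
      congr 3
      push_cast
      field_simp
    have hb : |Real.pi * (h : ℝ) / w| ≤ 2 / 5 := by
      rw [abs_div, abs_mul, abs_of_pos Real.pi_pos, abs_of_pos hw0, div_le_iff₀ hw0]
      have h1 : 8 * |(h : ℝ)| ≤ w := by exact_mod_cast hh
      have h2 := Real.pi_lt_d2
      have h3 := abs_nonneg (h : ℝ)
      nlinarith
    have ha1 : 3 * Real.pi / 4 ≤ Real.pi * x / w := by
      rw [le_div_iff₀ hw0]
      nlinarith
    have ha2 : Real.pi * x / w ≤ Real.pi := by
      rw [div_le_iff₀ hw0]
      nlinarith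
    have key := a1b_real ha1 ha2 hb
    rw [e1, e2]
    have e3 : Real.pi / (2 * w) * Real.sin (Real.pi * x / w) * h =
        (Real.pi * h / w) * Real.sin (Real.pi * x / w) / 2 := by
      field_simp
    have e4 : (if h < 0 then 1 / 6 * (Real.pi / (2 * w)) ^ 2 * (h : ℝ) ^ 2 else 0) =
        (if Real.pi * (h : ℝ) / w < 0 then (Real.pi * h / w) ^ 2 / 12 else 0) / 2 := by
      by_cases h0 : h < 0
      · have h0' : (h : ℝ) < 0 := by exact_mod_cast h0
        have h1 : Real.pi * (h : ℝ) / w < 0 :=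
          div_neg_of_neg_of_pos (mul_neg_of_pos_of_neg hpi h0') hw0
        rw [if_pos h0, if_pos h1]
        field_simp
        ring
      · have h0' : (0 : ℝ) ≤ (h : ℝ) := by exact_mod_cast not_lt.1 h0
        have h1 : ¬ Real.pi * (h : ℝ) / w < 0 := not_lt.2 (by positivity)
        rw [if_neg h0, if_neg h1, zero_div]
    rw [e3, e4]
    linarith
  · have hh0 : 0 < h := by omega
    have hhr : (0 : ℝ) < h := by exact_mod_cast hh0
    have hcr : (w : ℝ) ≤ (x : ℝ) + h := by exact_mod_cast hc.le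
    have e2 : psi w (x + h) = 0 := by
      unfold psi
      rw [if_neg]
      rw [not_le]
      exact lt_of_lt_of_le hc (le_abs_self _)
    rw [e2, if_neg (not_lt.2 hh0.le)]
    have e1 : psi w x = Real.cos (Real.pi * x / (2 * w)) := by
      unfold psi
      rw [if_pos hxw]
    set c := Real.cos (Real.pi * x / (2 * w)) with hcdef
    set s := Real.sin (Real.pi * x / (2 * w)) with hsdef
    have e3 : Real.sin (Real.pi * x / w) = 2 * s * c := by
      rw [hcdef, hsdef, ← Real.sin_two_mul]
      congr 1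
      field_simp
    have harg : Real.pi / 2 - Real.pi * x / (2 * w) = Real.pi / (2 * w) * (w - x) := by
      field_simp
    have hc1 : c ≤ Real.pi / (2 * w) * (w - x) := by
      rw [hcdef, ← Real.sin_pi_div_two_sub, harg]
      refine Real.sin_le ?_
      exact mul_nonneg (by positivity) (by linarith)
    have hc0 : 0 ≤ c := by
      rw [hcdef]
      apply Real.cos_nonneg_of_mem_Icc
      constructor
      · have : 0 ≤ Real.pi * x / (2 * w) := by positivity
        linarith
      · have h5 : 0 ≤ Real.pi / (2 * w) * (w - x) := mul_nonneg (by positivity) (by linarith)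
        linarith
    have hs0 : 0 ≤ s := by
      rw [hsdef]
      refine Real.sin_nonneg_of_nonneg_of_le_pi (by positivity) ?_
      have h5 : 0 ≤ Real.pi / (2 * w) * (w - x) := mul_nonneg (by positivity) (by linarith)
      linarith
    have hch : c ≤ Real.pi / (2 * w) * h := by
      refine le_trans hc1 (mul_le_mul_of_nonneg_left (by linarith) (by positivity))
    have hc4 : c ≤ 1 / 2 := by
      have h5 : Real.pi / (2 * w) * (w - x) ≤ Real.pi / 8 := by
        have h6 : Real.pi / (2 * w) * (w - x) ≤ Real.pi / (2 * w) * (w / 4) :=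
          mul_le_mul_of_nonneg_left (by linarith) (by positivity)
        have h7 : Real.pi / (2 * w) * ((w : ℝ) / 4) = Real.pi / 8 := by
          field_simp
          norm_num
        linarith
      have := Real.pi_le_four
      linarith
    have hs2 : 1 / 2 ≤ s := by
      have h5 := Real.sin_sq_add_cos_sq (Real.pi * x / (2 * w))
      rw [← hcdef, ← hsdef] at h5
      by_contra hcon
      rw [not_le] at hcon
      nlinarith
    rw [e1, e3]
    have h6 : c ^ 2 ≤ c * (Real.pi / (2 * w) * h) := by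
      rw [pow_two]
      exact mul_le_mul_of_nonneg_left hch hc0
    have h7 : c * (Real.pi / (2 * w) * h) * 1 ≤ c * (Real.pi / (2 * w) * h) * (2 * s) :=
      mul_le_mul_of_nonneg_left (by linarith) (by positivity)
    have h8 : Real.pi / (2 * w) * (2 * s * c) * h = c * (Real.pi / (2 * w) * h) * (2 * s) := by
      ring
    rw [h8]
    nlinarith

end Pool.Agent.H34.CM
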