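import Pool.Agent.H34.CM.A1a
import Pool.Agent.H34.CM.A1b

/-!
A1: the pointwise cosine inequalities (proofs in A1a, A1b).
-/
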