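import Pool.Agent.H34.CM.Defs
import Pool.Agent.H34.LS.V6

/-!
A1a: `point_mid` of CM/A1. With `a = π x / w`, `b = π h / w`: `cos (a + b) ≥ cos a - b sin a - b ^ 2`.
-/

namespace Pool.Agent.H34.CM

open Pool.Agent.H34.LS

private theorem a1a_real (a b : ℝ) (hb : |b| ≤ 1) :
    Real.cos a - b * Real.sin a - b ^ 2 ≤ Real.cos (a + b) := by
  rw [Real.cos_add]
  have h1 := Real.one_sub_sq_div_two_le_cos (x := b)
  have h2 := Real.cos_le_one b
  have h3 := Real.sin_bound hb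
  have h4 : |Real.sin b - b| ≤ b ^ 2 / 2 := by
    have h5 : |b| ^ 5 ≤ b ^ 2 := by
      rw [← sq_abs b]
      exact pow_le_pow_of_le_one (abs_nonneg b) hb (by norm_num)
    have h6 : |b ^ 3 / 6| ≤ b ^ 2 / 6 := by
      rw [abs_div, abs_pow, ← sq_abs b, abs_of_pos (show (0 : ℝ) < 6 by norm_num)]
      exact div_le_div_of_nonneg_right
        (pow_le_pow_of_le_one (abs_nonneg b) hb (by norm_num)) (by norm_num)
    have h7 : |Real.sin b - b| ≤ |Real.sin b - (b - b ^ 3 / 6)| + |b ^ 3 / 6| := by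
      have h8 := abs_sub (Real.sin b - (b - b ^ 3 / 6)) (b ^ 3 / 6)
      have h9 : Real.sin b - (b - b ^ 3 / 6) - b ^ 3 / 6 = Real.sin b - b := by ring
      rwa [h9] at h8
    linarith [sq_nonneg b]
  have h5 : -(b ^ 2 / 2) ≤ Real.cos a * (Real.cos b - 1) := by
    have h6 := Real.cos_le_one a
    have h7 := Real.neg_one_le_cos a
    nlinarith
  have h6 : Real.sin a * (Real.sin b - b) ≤ b ^ 2 / 2 := by
    have h7 : |Real.sin a * (Real.sin b - b)| ≤ b ^ 2 / 2 := by
      rw [abs_mul]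
      calc |Real.sin a| * |Real.sin b - b| ≤ 1 * (b ^ 2 / 2) :=
            mul_le_mul (Real.abs_sin_le_one a) h4 (abs_nonneg _) (by norm_num)
        _ = b ^ 2 / 2 := one_mul _
    exact le_trans (le_abs_self _) h7
  nlinarith

theorem point_mid {w : ℕ} (hw : 1 ≤ w) {x h : ℤ} (hx : 4 * |x| ≤ 3 * (w : ℤ))
    (hh : 8 * |h| ≤ (w : ℤ)) :
    psi w x ^ 2 - Real.pi / (2 * w) * Real.sin (Real.pi * x / w) * h -
      2 * (Real.pi / (2 * w)) ^ 2 * (h : ℝ) ^ 2 ≤ psi w (x + h) ^ 2 := by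
  have hw0 : (0 : ℝ) < w := by exact_mod_cast hw
  have hxw : |x| ≤ (w : ℤ) := by
    have := abs_nonneg x
    omega
  have hxh : |x + h| ≤ (w : ℤ) := by
    have h1 := abs_add_le x h
    have h2 := abs_nonneg x
    omega
  have e1 : psi w x ^ 2 = 1 / 2 + Real.cos (Real.pi * x / w) / 2 := by
    unfold psi
    rw [if_pos hxw, Real.cos_sq]
    congr 3
    field_simp
  have e2 : psi w (x + h) ^ 2 =
      1 / 2 + Real.cos (Real.pi * x / w + Real.pi * h / w) / 2 := by
    unfold psi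
    rw [if_pos hxh, Real.cos_sq]
    congr 3
    push_cast
    field_simp
  have hb : |Real.pi * (h : ℝ) / w| ≤ 1 := by
    rw [abs_div, abs_mul, abs_of_pos Real.pi_pos, abs_of_pos hw0, div_le_one hw0]
    have h1 : 8 * |(h : ℝ)| ≤ w := by exact_mod_cast hh
    have h2 := Real.pi_le_four
    have h3 := abs_nonneg (h : ℝ)
    nlinarith
  have key := a1a_real (Real.pi * x / w) (Real.pi * h / w) hb
  rw [e1, e2]
  have e3 : Real.pi / (2 * w) * Real.sin (Real.pi * x / w) * h =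
      (Real.pi * h / w) * Real.sin (Real.pi * x / w) / 2 := by
    field_simp
  have e4 : 2 * (Real.pi / (2 * w)) ^ 2 * (h : ℝ) ^ 2 = (Real.pi * h / w) ^ 2 / 2 := by
    field_simp
  rw [e3, e4]
  linarith

end Pool.Agent.H34.CM
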