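import Pool.Agent.H34.CM.A1
import Pool.Agent.H34.SM.A

/-!
A2: `psi w ^ 2` is a subsolution for a nearly centered measure with the long steps removed. `θ = π / (2 w)`, `m = P.sum (short: a * hh g)`, `8 w |m| ≤ s`. `|x| ≥ w`: `psi w x = 0` (`psi_zero`), the right side is `≥ 0`. The mass of the long steps is at most
`64 H^2 M / w^2` (`1 ≤ (8 H |g| / w)^2` for long `g`), `P.sum (a * hh g ^ 2) ≤ H^2 M`; `s ≤ H^2 M` from `Near.up`. `4 |x| ≤ 3 w`: sum `point_mid` over the short steps (`8 |hh g| ≤ 8 H |g| ≤ w`):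
`≥ (1 - 64 H^2 M / w^2) F x - θ |m| - 2 θ^2 H^2 M ≥ F x - 64 H^2 M / w^2 F x - 6 H^2 M / w^2` (`θ ≤ 2 / w`, `θ^2 ≤ 5/2 / w^2`) and `F x ≥ 1 / 9` (`psi w x ≥ cos (3 π / 8) ≥ 1 / 3`; V6 has this as a private lemma `v6_cos_three`). `3 w < 4 x < 4 w`: sum
`point_edge`: `≥ (1 - 64 H^2 M / w^2) F x - θ |m| + θ^2 s / 6` by `Near.down`, and `θ |m| ≤ θ s / (8 w) ≤ θ^2 s / 6` as `θ w = π / 2 ≥ 3 / 4`. `-4 w < 4 x < -3 w`: the same with `point_edge` at `-x`, `-hh g` (`psi_neg`, `Real.sin_neg`) and `Near.up`.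
Compare SM/A `subsol_sym`.
-/

namespace Pool.Agent.H34.CM

open Pool.Agent.H34.LS Pool.Agent.H34.RP Pool.Agent.H34.SM

universe u

variable {G : Type u} [Group G]

/-- sum of a pointwise bound over the short steps. -/
private theorem a2_sum {P : G →₀ ℝ} (hP : Prb P) {hh : G → ℤ} {S : Set G} {H w : ℕ} {x : ℤ}
    {t : ℝ} {γ : G → ℝ}
    (h : ∀ g, 8 * H * wordLength S g ≤ w →
      psi w x ^ 2 - t * (hh g : ℝ) + γ g ≤ psi w (x + hh g) ^ 2) :
    psi w x ^ 2 * (∑ g ∈ P.support, if 8 * H * wordLength S g ≤ w then P g else 0) -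
      t * (∑ g ∈ P.support, if 8 * H * wordLength S g ≤ w then P g * (hh g : ℝ) else 0) +
      (∑ g ∈ P.support, if 8 * H * wordLength S g ≤ w then P g * γ g else 0) ≤
    ∑ g ∈ P.support, if 8 * H * wordLength S g ≤ w then P g * psi w (x + hh g) ^ 2 else 0 := by
  rw [Finset.mul_sum, Finset.mul_sum, ← Finset.sum_sub_distrib, ← Finset.sum_add_distrib]
  refine Finset.sum_le_sum fun g _ => ?_
  split_ifs with hg
  · have h1 := mul_le_mul_of_nonneg_left (h g hg) (hP.nonneg g)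
    refine le_trans (le_of_eq ?_) h1
    ring
  · simp

/-- the mass of the short steps. -/
private theorem a2_mass {P : G →₀ ℝ} (hP : Prb P) {S : Set G} {H w : ℕ} (hw : 1 ≤ w) {M : ℝ}
    (hM : mom2 S P ≤ M) :
    1 - 64 * (H : ℝ) ^ 2 * M / (w : ℝ) ^ 2 ≤
      ∑ g ∈ P.support, if 8 * H * wordLength S g ≤ w then P g else 0 := by
  have hwr : (1 : ℝ) ≤ w := by exact_mod_cast hw
  have hw0 : (0 : ℝ) < w := by linarith
  have htot : ∑ g ∈ P.support, P g = 1 := hP.total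
  have hmom : ∑ g ∈ P.support, P g * (wordLength S g : ℝ) ^ 2 ≤ M := hM
  have h1 : ∑ g ∈ P.support, (P g - 64 * (H : ℝ) ^ 2 / (w : ℝ) ^ 2 *
      (P g * (wordLength S g : ℝ) ^ 2)) ≤
      ∑ g ∈ P.support, if 8 * H * wordLength S g ≤ w then P g else 0 := by
    refine Finset.sum_le_sum fun g _ => ?_
    have hp := hP.nonneg g
    have h0 : 0 ≤ 64 * (H : ℝ) ^ 2 / (w : ℝ) ^ 2 * (P g * (wordLength S g : ℝ) ^ 2) := by
      positivity
    split_ifs with hg
    · linarith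
    · have h2 : (w : ℝ) ^ 2 ≤ 64 * (H : ℝ) ^ 2 * (wordLength S g : ℝ) ^ 2 := by
        have h3 : (w : ℝ) ≤ 8 * H * wordLength S g := by exact_mod_cast (not_le.mp hg).le
        have h4 := pow_le_pow_left₀ hw0.le h3 2
        refine le_trans h4 (le_of_eq ?_)
        ring
      have h5 : 1 ≤ 64 * (H : ℝ) ^ 2 / (w : ℝ) ^ 2 * (wordLength S g : ℝ) ^ 2 := by
        rw [div_mul_eq_mul_div, le_div_iff₀ (by positivity)]
        linarith
      have h6 := mul_le_mul_of_nonneg_left h5 hp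
      linarith
  rw [Finset.sum_sub_distrib, ← Finset.mul_sum, htot] at h1
  have h2 : 64 * (H : ℝ) ^ 2 / (w : ℝ) ^ 2 * ∑ g ∈ P.support, P g * (wordLength S g : ℝ) ^ 2 ≤
      64 * (H : ℝ) ^ 2 / (w : ℝ) ^ 2 * M := mul_le_mul_of_nonneg_left hmom (by positivity)
  have h3 : 64 * (H : ℝ) ^ 2 * M / (w : ℝ) ^ 2 = 64 * (H : ℝ) ^ 2 / (w : ℝ) ^ 2 * M := by ring
  linarith

/-- second moments of the heights of some steps. -/
private theorem a2_sq {P : G →₀ ℝ} (hP : Prb P) {hh : G → ℤ} {S : Set G} {H : ℕ}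
    (hH : ∀ g, |hh g| ≤ (H : ℤ) * (wordLength S g : ℤ)) {M : ℝ} (hM : mom2 S P ≤ M)
    (c : G → Prop) [DecidablePred c] :
    ∑ g ∈ P.support, (if c g then P g * (hh g : ℝ) ^ 2 else 0) ≤ (H : ℝ) ^ 2 * M := by
  have hmom : ∑ g ∈ P.support, P g * (wordLength S g : ℝ) ^ 2 ≤ M := hM
  refine le_trans ?_ (mul_le_mul_of_nonneg_left hmom (sq_nonneg (H : ℝ)))
  rw [Finset.mul_sum]
  refine Finset.sum_le_sum fun g _ => ?_
  have hp := hP.nonneg g
  split_ifs with hg
  · have h1 : (hh g : ℝ) ^ 2 ≤ ((H : ℝ) * wordLength S g) ^ 2 := by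
      rw [← sq_abs]
      apply pow_le_pow_left₀ (abs_nonneg _)
      exact_mod_cast hH g
    have h2 := mul_le_mul_of_nonneg_left h1 hp
    refine le_trans h2 (le_of_eq ?_)
    ring
  · positivity

theorem subsol2 {P : G →₀ ℝ} (hP : Prb P) {hh : G → ℤ} {S : Set G} {H : ℕ}
    (hH1 : 1 ≤ H) (hH : ∀ g, |hh g| ≤ (H : ℤ) * (wordLength S g : ℤ)) {M : ℝ}
    (hM : mom2 S P ≤ M) {s : ℝ} (hs : 0 < s) {w : ℕ} (hw : 1 ≤ w) (hN : Near P S H hh s w)
    (x : ℤ) :
    (1 - 200 * (H : ℝ) ^ 2 * M / (w : ℝ) ^ 2) * psi w x ^ 2 ≤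
      P.sum (fun g a => if 8 * H * wordLength S g ≤ w then a * psi w (x + hh g) ^ 2 else 0) := by
  have hwr : (1 : ℝ) ≤ w := by exact_mod_cast hw
  have hw0 : (0 : ℝ) < w := by linarith
  have hpi := Real.pi_pos
  have hpi3 := Real.pi_gt_three
  have hpi4 := Real.pi_lt_d2
  have hpisq : Real.pi ^ 2 ≤ 10 := by
    have h1 := pow_le_pow_left₀ hpi.le hpi4.le 2
    refine h1.trans ?_
    norm_num
  show _ ≤ ∑ g ∈ P.support,
    (if 8 * H * wordLength S g ≤ w then P g * psi w (x + hh g) ^ 2 else 0)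
  rcases le_or_gt (w : ℤ) |x| with hx | hx
  · rw [psi_zero hw hx]
    have h0 : (1 - 200 * (H : ℝ) ^ 2 * M / (w : ℝ) ^ 2) * (0 : ℝ) ^ 2 = 0 := by ring
    rw [h0]
    refine Finset.sum_nonneg fun g _ => ?_
    split_ifs
    · exact mul_nonneg (hP.nonneg g) (sq_nonneg _)
    · exact le_rfl
  have hmom : ∑ g ∈ P.support, P g * (wordLength S g : ℝ) ^ 2 ≤ M := hM
  have hM0 : 0 ≤ M :=
    le_trans (Finset.sum_nonneg fun g _ => mul_nonneg (hP.nonneg g) (sq_nonneg _)) hmom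
  have hA := a2_mass (H := H) hP hw hM
  obtain ⟨A, hAe⟩ : ∃ A : ℝ,
      A = ∑ g ∈ P.support, if 8 * H * wordLength S g ≤ w then P g else 0 := ⟨_, rfl⟩
  rw [← hAe] at hA
  obtain ⟨m, hme⟩ : ∃ m : ℝ,
      m = ∑ g ∈ P.support, if 8 * H * wordLength S g ≤ w then P g * (hh g : ℝ) else 0 :=
    ⟨_, rfl⟩
  have hm : 8 * (w : ℝ) * |m| ≤ s := by
    rw [hme]
    exact hN.mean
  have hup : s ≤ ∑ g ∈ P.support,
      (if 8 * H * wordLength S g ≤ w ∧ 0 < hh g then P g * (hh g : ℝ) ^ 2 else 0) := hN.up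
  have hdown : s ≤ ∑ g ∈ P.support,
      (if 8 * H * wordLength S g ≤ w ∧ hh g < 0 then P g * (hh g : ℝ) ^ 2 else 0) := hN.down
  have hsM : s ≤ (H : ℝ) ^ 2 * M :=
    hup.trans (a2_sq hP hH hM fun g => 8 * H * wordLength S g ≤ w ∧ 0 < hh g)
  have h8 : ∀ g, 8 * H * wordLength S g ≤ w → 8 * |hh g| ≤ (w : ℤ) := by
    intro g hg
    have h1 : (8 : ℤ) * H * wordLength S g ≤ w := by exact_mod_cast hg
    have h2 := hH g
    linarith
  obtain ⟨F, hF⟩ : ∃ F : ℝ, F = psi w x ^ 2 := ⟨_, rfl⟩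
  have hF0 : 0 ≤ F := by
    rw [hF]
    exact sq_nonneg _
  obtain ⟨θ, hθ⟩ : ∃ θ : ℝ, θ = Real.pi / (2 * w) := ⟨_, rfl⟩
  have hθ0 : 0 < θ := by
    rw [hθ]
    positivity
  obtain ⟨t, ht⟩ : ∃ t : ℝ, t = θ * Real.sin (Real.pi * x / w) := ⟨_, rfl⟩
  have htm : t * m ≤ θ * |m| := by
    rw [ht]
    have h1 := Real.abs_sin_le_one (Real.pi * x / w)
    have h2 : θ * Real.sin (Real.pi * x / w) * m ≤ |θ * Real.sin (Real.pi * x / w) * m| :=
      le_abs_self _
    rw [abs_mul, abs_mul, abs_of_pos hθ0] at h2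
    refine h2.trans ?_
    have h3 : θ * |Real.sin (Real.pi * x / w)| ≤ θ * 1 := mul_le_mul_of_nonneg_left h1 hθ0.le
    have h4 := mul_le_mul_of_nonneg_right h3 (abs_nonneg m)
    linarith
  have hm2 : |m| ≤ s / (8 * w) := by
    rw [le_div_iff₀ (by positivity)]
    linarith
  have hw2 : 0 < (w : ℝ) ^ 2 := by positivity
  obtain ⟨K, hK⟩ : ∃ K : ℝ, K = (H : ℝ) ^ 2 * M / (w : ℝ) ^ 2 := ⟨_, rfl⟩
  have hK0 : 0 ≤ K := by
    rw [hK]
    positivity
  have hKw : (H : ℝ) ^ 2 * M = K * (w : ℝ) ^ 2 := by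
    rw [hK]
    field_simp
  have hA' : 1 - 64 * K ≤ A := by
    refine le_trans (le_of_eq ?_) hA
    rw [hK]
    ring
  have hgoal : (1 - 200 * (H : ℝ) ^ 2 * M / (w : ℝ) ^ 2) = 1 - 200 * K := by
    rw [hK]
    ring
  rw [hgoal, ← hF]
  have hFA : F * (1 - 64 * K) ≤ F * A := mul_le_mul_of_nonneg_left hA' hF0
  have hθw : θ * w = Real.pi / 2 := by
    rw [hθ]
    field_simp
  rcases le_or_gt (4 * |x|) (3 * (w : ℤ)) with hmid | hedge
  · -- the middle
    have h1 := a2_sum (x := x) (t := t) (γ := fun g => -(2 * θ ^ 2) * (hh g : ℝ) ^ 2) (H := H)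
      (S := S) (hh := hh) (w := w) hP (fun g hg => by
        have h2 := point_mid hw hmid (h8 g hg)
        rw [← hθ, ← ht] at h2
        show psi w x ^ 2 - t * (hh g : ℝ) + -(2 * θ ^ 2) * (hh g : ℝ) ^ 2 ≤ _
        linarith)
    rw [← hAe, ← hme, ← hF] at h1
    refine le_trans ?_ h1
    have h3 : -(2 * θ ^ 2) * ((H : ℝ) ^ 2 * M) ≤ ∑ g ∈ P.support,
        (if 8 * H * wordLength S g ≤ w then P g * (-(2 * θ ^ 2) * (hh g : ℝ) ^ 2) else 0) := by
      have h4 : ∑ g ∈ P.support,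
          (if 8 * H * wordLength S g ≤ w then P g * (-(2 * θ ^ 2) * (hh g : ℝ) ^ 2) else 0) =
          -(2 * θ ^ 2) * ∑ g ∈ P.support,
            (if 8 * H * wordLength S g ≤ w then P g * (hh g : ℝ) ^ 2 else 0) := by
        rw [Finset.mul_sum]
        refine Finset.sum_congr rfl fun g _ => ?_
        split_ifs
        · ring
        · ring
      rw [h4]
      have h5 := a2_sq hP hH hM fun g => 8 * H * wordLength S g ≤ w
      have h6 : 0 ≤ 2 * θ ^ 2 := by positivity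
      have h7 := mul_le_mul_of_nonneg_left h5 h6
      linarith
    -- the numbers
    have h4 : θ * |m| ≤ 1 / 4 * K := by
      have h5 : θ * |m| ≤ θ * (s / (8 * w)) := mul_le_mul_of_nonneg_left hm2 hθ0.le
      have h6 : θ * (s / (8 * w)) ≤ θ * (K * (w : ℝ) ^ 2 / (8 * w)) := by
        apply mul_le_mul_of_nonneg_left _ hθ0.le
        apply div_le_div_of_nonneg_right _ (by positivity)
        linarith
      have h7 : θ * (K * (w : ℝ) ^ 2 / (8 * w)) = K * (Real.pi / 16) := by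
        rw [hθ]
        field_simp
        ring
      rw [h7] at h6
      have h8 : K * (Real.pi / 16) ≤ K * (1 / 4) :=
        mul_le_mul_of_nonneg_left (by linarith) hK0
      linarith
    have h5 : 2 * θ ^ 2 * ((H : ℝ) ^ 2 * M) ≤ 5 * K := by
      have h6 : 2 * θ ^ 2 * ((H : ℝ) ^ 2 * M) = 2 * (θ * w) ^ 2 * K := by
        rw [hKw]
        ring
      rw [h6, hθw]
      have h7 : 2 * (Real.pi / 2) ^ 2 ≤ 5 := by
        rw [div_pow]
        linarith
      exact mul_le_mul_of_nonneg_right h7 hK0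
    have h6 : 1 / 16 ≤ F := by
      rw [hF, psi_eq_cos hx.le]
      have h7 := Real.one_sub_sq_div_two_le_cos (x := Real.pi * x / (2 * w))
      have h8 : (Real.pi * (x : ℝ) / (2 * w)) ^ 2 ≤ 3 / 2 := by
        have h9 : 16 * (x : ℝ) ^ 2 ≤ 9 * (w : ℝ) ^ 2 := by
          have h10 : (4 * |(x : ℝ)|) ≤ 3 * (w : ℝ) := by exact_mod_cast hmid
          have h11 := pow_le_pow_left₀ (by positivity) h10 2
          rw [mul_pow, sq_abs, mul_pow] at h11
          linarith
        rw [div_pow, mul_pow, div_le_iff₀ (by positivity)]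
        have h11 : Real.pi ^ 2 * (x : ℝ) ^ 2 ≤ 10 * (9 / 16 * (w : ℝ) ^ 2) :=
          mul_le_mul hpisq (by linarith) (sq_nonneg _) (by norm_num)
        have h12 : 3 / 2 * (2 * (w : ℝ)) ^ 2 = 6 * (w : ℝ) ^ 2 := by ring
        rw [h12]
        linarith
      have h9 : 1 / 4 ≤ Real.cos (Real.pi * x / (2 * w)) := by linarith
      have h10 := pow_le_pow_left₀ (by norm_num : (0 : ℝ) ≤ 1 / 4) h9 2
      refine le_trans (le_of_eq ?_) h10
      norm_num
    have h7 := mul_nonneg hK0 hF0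
    have h8 := mul_le_mul_of_nonneg_left h6 hK0
    have h9 : (1 - 200 * K) * F = F * (1 - 64 * K) - 136 * (K * F) := by ring
    have h10 : -(2 * θ ^ 2) * ((H : ℝ) ^ 2 * M) = -(2 * θ ^ 2 * ((H : ℝ) ^ 2 * M)) := by ring
    rw [h9]
    linarith
  · -- the edges
    have hcmp : θ * |m| ≤ 1 / 6 * θ ^ 2 * s := by
      have h5 : θ * |m| ≤ θ * (s / (8 * w)) := mul_le_mul_of_nonneg_left hm2 hθ0.le
      refine h5.trans ?_
      have h6 : θ * (s / (8 * w)) = θ * s / (8 * w) := by ring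
      rw [h6, div_le_iff₀ (by positivity)]
      have h7 : 1 / 6 * θ ^ 2 * s * (8 * w) = θ * s * (4 / 3 * (θ * w)) := by ring
      rw [h7, hθw]
      have h8 : 0 ≤ θ * s := by positivity
      have h9 := mul_le_mul_of_nonneg_left
        (by linarith : (1 : ℝ) ≤ 4 / 3 * (Real.pi / 2)) h8
      linarith
    have hfin : ∀ {E : ℝ}, s ≤ E → (1 - 200 * K) * F ≤ F * A - t * m + 1 / 6 * θ ^ 2 * E := by
      intro E hE
      have h5 : 1 / 6 * θ ^ 2 * s ≤ 1 / 6 * θ ^ 2 * E :=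
        mul_le_mul_of_nonneg_left hE (by positivity)
      have h6 := mul_nonneg hK0 hF0
      have h9 : (1 - 200 * K) * F = F * (1 - 64 * K) - 136 * (K * F) := by ring
      rw [h9]
      linarith
    rcases le_or_gt 0 x with hx0 | hx0
    · rw [abs_of_nonneg hx0] at hx hedge
      have h1 := a2_sum (x := x) (t := t)
        (γ := fun g => if hh g < 0 then 1 / 6 * θ ^ 2 * (hh g : ℝ) ^ 2 else 0) (H := H)
        (S := S) (hh := hh) (w := w) hP (fun g hg => by
          have h2 := point_edge hw hedge hx (h8 g hg)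
          rw [← hθ, ← ht] at h2
          exact h2)
      rw [← hAe, ← hme, ← hF] at h1
      refine le_trans ?_ h1
      have h4 : ∑ g ∈ P.support, (if 8 * H * wordLength S g ≤ w then
            P g * (if hh g < 0 then 1 / 6 * θ ^ 2 * (hh g : ℝ) ^ 2 else 0) else 0) =
          1 / 6 * θ ^ 2 * ∑ g ∈ P.support,
            (if 8 * H * wordLength S g ≤ w ∧ hh g < 0 then P g * (hh g : ℝ) ^ 2 else 0) := by
        rw [Finset.mul_sum]
        refine Finset.sum_congr rfl fun g _ => ?_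
        by_cases h5 : 8 * H * wordLength S g ≤ w
        · by_cases h6 : hh g < 0
          · rw [if_pos h5, if_pos h6, if_pos ⟨h5, h6⟩]
            ring
          · rw [if_pos h5, if_neg h6, if_neg fun h => h6 h.2]
            ring
        · rw [if_neg h5, if_neg fun h => h5 h.1]
          ring
      rw [h4]
      exact hfin hdown
    · rw [abs_of_neg hx0] at hx hedge
      have h1 := a2_sum (x := x) (t := t)
        (γ := fun g => if 0 < hh g then 1 / 6 * θ ^ 2 * (hh g : ℝ) ^ 2 else 0) (H := H)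
        (S := S) (hh := hh) (w := w) hP (fun g hg => by
          have h2 := point_edge (h := -hh g) hw hedge hx (by rw [abs_neg]; exact h8 g hg)
          have h3 : -x + -hh g = -(x + hh g) := by ring
          rw [← hθ, h3, psi_neg, psi_neg] at h2
          have h4 : Real.pi * ((-x : ℤ) : ℝ) / w = -(Real.pi * x / w) := by
            push_cast
            ring
          rw [h4, Real.sin_neg] at h2
          have h5 : (if -hh g < 0 then 1 / 6 * θ ^ 2 * ((-hh g : ℤ) : ℝ) ^ 2 else 0) =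
              if 0 < hh g then 1 / 6 * θ ^ 2 * (hh g : ℝ) ^ 2 else 0 := by
            have h6 : ((-hh g : ℤ) : ℝ) ^ 2 = (hh g : ℝ) ^ 2 := by
              push_cast
              ring
            rw [h6]
            exact if_congr neg_lt_zero rfl rfl
          rw [h5] at h2
          refine le_trans (le_of_eq ?_) h2
          rw [ht]
          push_cast
          ring)
      rw [← hAe, ← hme, ← hF] at h1
      refine le_trans ?_ h1
      have h4 : ∑ g ∈ P.support, (if 8 * H * wordLength S g ≤ w then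
            P g * (if 0 < hh g then 1 / 6 * θ ^ 2 * (hh g : ℝ) ^ 2 else 0) else 0) =
          1 / 6 * θ ^ 2 * ∑ g ∈ P.support,
            (if 8 * H * wordLength S g ≤ w ∧ 0 < hh g then P g * (hh g : ℝ) ^ 2 else 0) := by
        rw [Finset.mul_sum]
        refine Finset.sum_congr rfl fun g _ => ?_
        by_cases h5 : 8 * H * wordLength S g ≤ w
        · by_cases h6 : 0 < hh g
          · rw [if_pos h5, if_pos h6, if_pos ⟨h5, h6⟩]
            ring
          · rw [if_pos h5, if_neg h6, if_neg fun h => h6 h.2]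
            ring
        · rw [if_neg h5, if_neg fun h => h5 h.1]
          ring
      rw [h4]
      exact hfin hup

end Pool.Agent.H34.CM
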