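import Pool.Agent.H34.CM.Defs
import Pool.Agent.H34.SM.B

/-!
B: survival in `RchT` with `psi w ^ 2` in place of `psi w`. Copy of SM/B `su_rchT` (`0 ≤ psi ≤ 1`, so `psi ^ 2 ≤ 1`, and `psi ^ 2 = 0` where `psi = 0`).
-/

namespace Pool.Agent.H34.CM

open Pool.Agent.H34.LS Pool.Agent.H34.RP Pool.Agent.H34.SM

universe u

variable {G : Type u} [Group G] {P : G →₀ ℝ} {hh : G → ℤ}

private theorem b2_append {S : Set G} {H w : ℕ} {x g : G} (hx : x ∈ RchT P S H hh w)
    (hg : P g ≠ 0) (hc : H * wordLength S g ≤ w) (hw : |hh (x * g)| ≤ (w : ℤ)) :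
    x * g ∈ RchT P S H hh w := by
  obtain ⟨l, h1, h2, h3⟩ := hx
  refine ⟨l ++ [g], ?_, ?_, fun k => ?_⟩
  · intro a ha
    rcases List.mem_append.1 ha with h | h
    · exact h1 a h
    · rw [List.mem_singleton.1 h]
      exact ⟨hg, hc⟩
  · rw [List.prod_append, h2, List.prod_singleton]
  · by_cases hk : k ≤ l.length
    · rw [List.take_append_of_le_length hk]
      exact h3 k
    · have hk' : (l ++ [g]).length ≤ k := by
        rw [List.length_append, List.length_singleton]
        omega
      rw [List.take_of_length_le hk', List.prod_append, h2, List.prod_singleton]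
      exact hw

private theorem b2_sq_le_one (w : ℕ) (x : ℤ) : psi w x ^ 2 ≤ 1 := by
  have h1 : psi w x ≤ 1 := psi_le_one w x
  have h2 : 0 ≤ psi w x := psi_nonneg w x
  nlinarith

theorem su_rchT2 (hP : ∀ g, 0 ≤ P g) (hhom : ∀ x y, hh (x * y) = hh x + hh y) {S : Set G}
    {H w : ℕ} (hw : 1 ≤ w) {l : ℝ} (hl : 0 ≤ l)
    (hsub : ∀ x : ℤ, l * psi w x ^ 2 ≤
      P.sum (fun g a => if H * wordLength S g ≤ w then a * psi w (x + hh g) ^ 2 else 0))
    {T : Finset G} (hT : (T : Set G) = RchT P S H hh w) (n : ℕ) {x : G} (hx : x ∈ T) :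
    l ^ n * psi w (hh x) ^ 2 ≤ su P T n x := by
  induction n generalizing x with
  | zero =>
    rw [su, if_pos hx, pow_zero, one_mul]
    exact b2_sq_le_one w _
  | succ n ih =>
    rw [su, if_pos hx]
    have h1 : l ^ (n + 1) * psi w (hh x) ^ 2 ≤
        l ^ n * P.sum (fun g a =>
          if H * wordLength S g ≤ w then a * psi w (hh x + hh g) ^ 2 else 0) := by
      rw [pow_succ, mul_assoc]
      exact mul_le_mul_of_nonneg_left (hsub (hh x)) (pow_nonneg hl n)
    refine le_trans h1 ?_
    rw [Finsupp.sum, Finset.mul_sum, Finsupp.sum]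
    refine Finset.sum_le_sum fun g hg => ?_
    have hg' : P g ≠ 0 := Finsupp.mem_support_iff.1 hg
    by_cases hq : H * wordLength S g ≤ w
    · rw [if_pos hq]
      have h2 : l ^ n * (P g * psi w (hh x + hh g) ^ 2) =
          P g * (l ^ n * psi w (hh x + hh g) ^ 2) := by
        ring
      rw [h2]
      refine mul_le_mul_of_nonneg_left ?_ (hP g)
      rw [← hhom x g]
      by_cases hc : |hh (x * g)| ≤ (w : ℤ)
      · have h3 : x * g ∈ T := by
          have hx' : x ∈ RchT P S H hh w := by
            rw [← hT]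
            exact hx
          have h4 := b2_append hx' hg' hq hc
          rw [← hT] at h4
          exact h4
        exact ih h3
      · rw [psi_zero hw (not_le.1 hc).le, zero_pow two_ne_zero, mul_zero]
        exact su_nonneg hP T n _
    · rw [if_neg hq, mul_zero]
      exact mul_nonneg (hP g) (su_nonneg hP T n _)

end Pool.Agent.H34.CM
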