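import Pool.Agent.H34.SM.Defs
import Pool.Agent.H34.DA.Defs

/-!
# Nearly centered finitely supported measures: definitions
-/

namespace Pool.Agent.H34.CM

open Pool.Agent.H34.LS Pool.Agent.H34.FL Pool.Agent.H34.DA

universe u

/-- finite second moment of the word length. -/
def SecondMoment {G : Type u} [Group G] (mu : G → ℝ) : Prop :=
  ∃ S : Set G, S.Finite ∧ Subgroup.closure S = ⊤ ∧
    Summable fun g => mu g * (wordLength S g : ℝ) ^ 2

/-- `P` is nearly centered and not degenerate at the scale `w`: the steps of length at most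
`w / (8 H)` have mean height at most `s / (8 w)` and second moment at least `s` in both directions. -/
structure Near {G : Type u} [Group G] (P : G →₀ ℝ) (S : Set G) (H : ℕ) (hh : G → ℤ) (s : ℝ)
    (w : ℕ) : Prop where
  mean : 8 * (w : ℝ) *
    |P.sum (fun g a => if 8 * H * wordLength S g ≤ w then a * (hh g : ℝ) else 0)| ≤ s
  up : s ≤ P.sum (fun g a =>
    if 8 * H * wordLength S g ≤ w ∧ 0 < hh g then a * (hh g : ℝ) ^ 2 else 0)
  down : s ≤ P.sum (fun g a =>
    if 8 * H * wordLength S g ≤ w ∧ hh g < 0 then a * (hh g : ℝ) ^ 2 else 0)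

end Pool.Agent.H34.CM
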