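import Pool.Agent.H34.CM.Z
import Pool.Agent.H34.DA.Fin

/-!
Fin: assembly; the criterion for centered measures with finite second moment.
-/

namespace Pool.Agent.H34.CM

open Pool.Agent.H34.LS Pool.Agent.H34.FL Pool.Agent.H34.DC Pool.Agent.H34.DA

universe u

theorem main6 :
    (∀ (G : Type u) [Group G] (f : G →* Multiplicative ℤ) (S : Set G), SmallWindows f S →
      ∀ mu : G → ℝ, IsProb mu → Generating mu → SecondMoment mu → mean f mu = 0 →
        Liouville mu) ∧
    (∀ (G : Type u) [Group G] (f : G →* Multiplicative ℤ), Onto f →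
      ∀ mu : G → ℝ, IsProb mu → FirstMoment mu → mean f mu ≠ 0 → ¬ Liouville mu) ∧
    ∃ (G : Type) (_ : Group G) (f : G →* Multiplicative ℤ), Group.FG G ∧ LocFinByZ G ∧
      LacunaryHyperbolic G ∧ Function.Surjective f ∧
      (∃ mu : G → ℝ, IsFSProb mu ∧ Generating mu ∧ Symm mu ∧ mean f mu = 0) ∧
      (∃ mu : G → ℝ, IsFSProb mu ∧ Generating mu ∧ mean f mu ≠ 0) ∧
      (∀ mu : G → ℝ, IsProb mu → Generating mu → CenteredHeight f mu → Liouville mu) ∧
      ∀ mu : G → ℝ, IsProb mu → Generating mu → FirstMoment mu →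
        (Liouville mu ↔ mean f mu = 0) :=
  ⟨fun _ _ f _ hS _ h hg hm h0 => centered_sm f hS h hg hm h0,
    fun _ _ f hf _ h hm hd => drift_first f hf.surj hf.locfin hf.infinite h hm hd, example2⟩

end Pool.Agent.H34.CM
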