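import Pool.Agent.H34.CM.Defs
import Pool.Agent.H34.DA.I
import Pool.Agent.H34.LS.W2

/-!
M1: moments of the word length and of the height under an epimorphism.
-/

namespace Pool.Agent.H34.CM

open Pool.Agent.H34.LS Pool.Agent.H34.FL Pool.Agent.H34.DA

universe u v

variable {G : Type u} [Group G] {G' : Type v} [Group G']

theorem image_moment (theta : G →* G') {mu : G → ℝ} (h : IsProb mu) {S : Set G}
    (hS : Subgroup.closure S = ⊤) {p : ℕ} (hs : Summable fun g => mu g * (wordLength S g : ℝ) ^ p) :
    Summable fun y => image (fun g => theta g) mu y * (wordLength (theta '' S) y : ℝ) ^ p := by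
  refine (image_sum (fun g => theta g) h
    (φ := fun y => (wordLength (theta '' S) y : ℝ) ^ p) ?_).summable
  refine Summable.of_nonneg_of_le (fun g => mul_nonneg (h.1 g) (by positivity)) (fun g => ?_) hs
  refine mul_le_mul_of_nonneg_left ?_ (h.1 g)
  have h1 : (wordLength (theta '' S) (theta g) : ℝ) ≤ (wordLength S g : ℝ) := by
    exact_mod_cast wl_map_le theta hS g
  exact pow_le_pow_left₀ (Nat.cast_nonneg _) h1 p

theorem closure_image_top (theta : G →* G') (ht : Function.Surjective theta) {S : Set G}
    (hS : Subgroup.closure S = ⊤) : Subgroup.closure (theta '' S) = ⊤ := by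
  rw [← MonoidHom.map_closure, hS, ← MonoidHom.range_eq_map]
  exact MonoidHom.range_eq_top.2 ht

theorem image_second (theta : G →* G') (ht : Function.Surjective theta) {mu : G → ℝ}
    (h : IsProb mu) (hm : SecondMoment mu) : SecondMoment (image (fun g => theta g) mu) := by
  obtain ⟨S, hf, hS, hs⟩ := hm
  exact ⟨theta '' S, hf.image _, closure_image_top theta ht hS, image_moment theta h hS hs⟩

theorem image_first (theta : G →* G') (ht : Function.Surjective theta) {mu : G → ℝ}
    (h : IsProb mu) (hm : FirstMoment mu) : FirstMoment (image (fun g => theta g) mu) := by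
  obtain ⟨S, hf, hS, hs⟩ := hm
  have h1 := image_moment theta h hS (p := 1) (by simpa using hs)
  exact ⟨theta '' S, hf.image _, closure_image_top theta ht hS, by simpa using h1⟩

/-- the height of an element is bounded by a multiple of its word length. -/
theorem ht_le (f : G →* Multiplicative ℤ) {S : Set G} (hf : S.Finite)
    (hS : Subgroup.closure S = ⊤) :
    ∃ C : ℕ, ∀ g, |((Multiplicative.toAdd (f g) : ℤ) : ℝ)| ≤ C * (wordLength S g : ℝ) := by
  obtain ⟨C, hC⟩ := (hf.image fun s => (Multiplicative.toAdd (f s)).natAbs).bddAbove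
  have hlist : ∀ l : List G, (∀ x ∈ l, x ∈ S ∨ x⁻¹ ∈ S) →
      (Multiplicative.toAdd (f l.prod)).natAbs ≤ C * l.length := by
    intro l
    induction l with
    | nil =>
      intro _
      rw [List.prod_nil, map_one]
      exact Nat.zero_le _
    | cons x l ih =>
      intro hl
      have h1 := ih fun y hy => hl y (List.mem_cons_of_mem _ hy)
      have h2 : (Multiplicative.toAdd (f x)).natAbs ≤ C := by
        rcases hl x List.mem_cons_self with hx | hx
        · exact hC (Set.mem_image_of_mem _ hx)
        · have h3 := hC (Set.mem_image_of_mem _ hx)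
          rwa [map_inv, toAdd_inv, Int.natAbs_neg] at h3
      rw [List.prod_cons, map_mul, toAdd_mul, List.length_cons]
      have h3 := Int.natAbs_add_le (Multiplicative.toAdd (f x)) (Multiplicative.toAdd (f l.prod))
      have h4 : C * (l.length + 1) = C * l.length + C := by ring
      omega
  refine ⟨C, fun g => ?_⟩
  obtain ⟨l, h1, h2, h3⟩ := wl_exists hS g
  have h4 := hlist l h2
  rw [h3, h1] at h4
  have h5 : (((Multiplicative.toAdd (f g)).natAbs : ℕ) : ℝ) =
      |((Multiplicative.toAdd (f g) : ℤ) : ℝ)| := by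
    rw [Nat.cast_natAbs, Int.cast_abs]
  rw [← h5]
  exact_mod_cast h4

theorem image_mean (theta : G →* G') (f : G' →* Multiplicative ℤ) {mu : G → ℝ} (h : IsProb mu)
    (hm : FirstMoment mu) : mean f (image (fun g => theta g) mu) = mean (f.comp theta) mu := by
  obtain ⟨S, hf, hS, hs⟩ := hm
  obtain ⟨C, hC⟩ := ht_le (f.comp theta) hf hS
  have h1 : Summable fun g => mu g * ((Multiplicative.toAdd (f (theta g)) : ℤ) : ℝ) := by
    refine Summable.of_norm_bounded (hs.mul_left (C : ℝ)) fun g => ?_
    rw [Real.norm_eq_abs, abs_mul, abs_of_nonneg (h.1 g)]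
    calc mu g * |((Multiplicative.toAdd (f (theta g)) : ℤ) : ℝ)|
        ≤ mu g * (C * (wordLength S g : ℝ)) := mul_le_mul_of_nonneg_left (hC g) (h.1 g)
      _ = (C : ℝ) * (mu g * (wordLength S g : ℝ)) := by ring
  exact (image_sum (fun g => theta g) h
    (φ := fun y => ((Multiplicative.toAdd (f y) : ℤ) : ℝ)) h1).tsum_eq

/-- a finite second moment implies a finite first moment. -/
theorem first_of_second {mu : G → ℝ} (h : IsProb mu) (hm : SecondMoment mu) :
    FirstMoment mu := by
  obtain ⟨S, hf, hS, hs⟩ := hm
  refine ⟨S, hf, hS, Summable.of_nonneg_of_le (fun g => mul_nonneg (h.1 g) (Nat.cast_nonneg _))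
    (fun g => mul_le_mul_of_nonneg_left ?_ (h.1 g)) hs⟩
  have h1 : wordLength S g ≤ wordLength S g ^ 2 := by nlinarith [Nat.zero_le (wordLength S g)]
  exact_mod_cast h1

end Pool.Agent.H34.CM
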