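import Pool.Agent.H34.DC.Fin
import Pool.Agent.H34.SM.Fin
import Pool.Agent.H34.FL.Defs

/-!
M2: the kernel of the height of the group `GG` is infinite and locally finite, its windows are small.
-/

namespace Pool.Agent.H34.CM

open Pool.Agent.H34.LS Pool.Agent.H34.DC Pool.Agent.H34.MI

universe u

variable {G : Type u} [Group G]

/-- finite windows: the kernel is locally finite. -/
theorem locfin_of_windows (f : G →* Multiplicative ℤ) (S : Set G)
    (hS : Subgroup.closure S = ⊤) (hfin : ∀ w, (window f S w).Finite) (s : Set G) (hs : s.Finite)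
    (hsk : s ⊆ (f.ker : Set G)) : ((Subgroup.closure s : Subgroup G) : Set G).Finite := by
  choose W hW using exists_window f S hS
  set w := hs.toFinset.sup W with hw
  have hsw : ∀ x ∈ s, x ∈ window f S w := fun x hx =>
    window_mono f S (Finset.le_sup (f := W) (hs.mem_toFinset.2 hx)) (hW x)
  set A : Set G := {g | g ∈ window f S w ∧ f g = 1} with hA
  have hAfin : A.Finite := (hfin w).subset fun g hg => hg.1
  have h1 : (1 : G) ∈ A := ⟨⟨[], by simp, rfl, fun k => by simp⟩, map_one f⟩
  have hmul : ∀ a ∈ A, ∀ b ∈ A, a * b ∈ A := fun a ha b hb =>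
    ⟨window_mul f S ha.1 hb.1 ha.2, by rw [map_mul, ha.2, hb.2, one_mul]⟩
  have hinv : ∀ a ∈ A, a⁻¹ ∈ A := by
    intro a ha
    have hm : Set.MapsTo (fun x => a * x) A A := fun x hx => hmul a ha x hx
    have hi : Set.InjOn (fun x => a * x) A := fun x _ y _ h => mul_left_cancel h
    have hsurj := (hAfin.injOn_iff_bijOn_of_mapsTo hm).1 hi
    obtain ⟨x, hx, hx1⟩ := hsurj.surjOn h1
    have : x = a⁻¹ := (inv_eq_of_mul_eq_one_right hx1).symm
    rwa [← this]
  let H : Subgroup G :=
    { carrier := A
      mul_mem' := fun {a b} ha hb => hmul a ha b hb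
      one_mem' := h1
      inv_mem' := fun {a} ha => hinv a ha }
  have hle : Subgroup.closure s ≤ H := (Subgroup.closure_le H).2 fun x hx =>
    ⟨hsw x hx, hsk hx⟩
  exact hAfin.subset hle

/-- the conjugates `T^k B T^{-k}`. -/
private noncomputable def cj (k : ℕ) : GG := gT ^ k * gB * (gT ^ k)⁻¹

private theorem cj_apply (k : ℕ) (x : XX) :
    ((cj k : GG) : Equiv.Perm XX) x = (x.1, x.2 + pt (0, (k : ℤ)) x.1) := by
  have h1 : ((gT ^ k : GG) : Equiv.Perm XX) = tX k := by
    rw [Subgroup.coe_pow, ← tX_zpow, zpow_natCast]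
    rfl
  have h2 : ((cj k : GG) : Equiv.Perm XX) = tX k * bX * (tX k)⁻¹ := by
    unfold cj
    rw [Subgroup.coe_mul, Subgroup.coe_mul, Subgroup.coe_inv, h1]
    rfl
  rw [h2, Equiv.Perm.mul_apply, Equiv.Perm.mul_apply, tX_inv, bX_apply, tX_apply]
  have h3 : pt (0, 0) ((x.1.1, x.1.2 - (k : ℤ)) : YY) = pt (0, (k : ℤ)) x.1 := by
    by_cases hx : x.1 = (0, (k : ℤ))
    · rw [hx, sub_self, pt_self, pt_self]
    · rw [pt_ne hx, pt_ne]
      intro h
      apply hx
      rw [Prod.ext_iff] at h ⊢
      refine ⟨h.1, ?_⟩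
      have h4 := h.2
      dsimp only at h4 ⊢
      omega
  dsimp only
  rw [h3, sub_add_cancel]

private theorem cj_inj : Function.Injective cj := by
  intro k l h
  by_contra hkl
  have h1 := cj_apply k ((0, (k : ℤ)), 0)
  rw [h, cj_apply] at h1
  have h2 := (Prod.ext_iff.1 h1).2
  dsimp only at h2
  rw [pt_self, pt_ne] at h2
  · exact absurd h2 (by decide)
  · intro h3
    have h4 := (Prod.ext_iff.1 h3).2
    dsimp only at h4
    exact hkl (by exact_mod_cast h4)

theorem gg_onto : Onto hgt where
  surj := hgt_surj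
  locfin := locfin_of_windows hgt gS gS_closure window_finite
  infinite := by
    refine Set.infinite_of_injective_forall_mem cj_inj fun k => ?_
    rw [SetLike.mem_coe, MonoidHom.mem_ker]
    have h1 : hgt gB = 1 := by
      apply Multiplicative.toAdd.injective
      rw [hgt_B]
      rfl
    unfold cj
    rw [map_mul, map_mul, map_inv, h1, mul_one, mul_inv_cancel]

theorem gg_small : SmallWindows hgt gS where
  gen := gS_closure
  finite := window_finite
  diverges := SM.gg_diverges

end Pool.Agent.H34.CM
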