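import Pool.Agent.H34.MI.Fin

/-!
M3: the moment of the jumps with respect to the gauge `n^2 / log (2 + n)^6`.
-/

namespace Pool.Agent.H34.CM

open Pool.Agent.H34.LS Pool.Agent.H34.MI

theorem log_lower {n0 C : ℕ} (hC : C ≤ 2 ^ n0) {k l : ℕ} (hl : 2 ^ k ≤ C * l) :
    Real.log 2 * (((k : ℝ) + 6) / ((n0 : ℝ) + 7)) ≤ Real.log (2 + (l : ℝ)) := by
  have h2 : 0 < Real.log 2 := Real.log_pos (by norm_num)
  have hn : (0 : ℝ) < (n0 : ℝ) + 7 := by positivity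
  rcases Nat.lt_or_ge (n0 + 1) k with hk | hk
  · have h3 : 2 ^ k ≤ 2 ^ n0 * l := hl.trans (Nat.mul_le_mul_right _ hC)
    obtain ⟨d, rfl⟩ : ∃ d, k = n0 + d := ⟨k - n0, by omega⟩
    have hd : 2 ≤ d := by omega
    have h4 : 2 ^ d ≤ l := by
      rw [pow_add] at h3
      exact Nat.le_of_mul_le_mul_left h3 (by positivity)
    have h5 : (2 : ℝ) ^ d ≤ 2 + (l : ℝ) := by
      have : (2 : ℝ) ^ d ≤ (l : ℝ) := by exact_mod_cast h4
      linarith
    have h6 := Real.log_le_log (by positivity) h5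
    rw [Real.log_pow] at h6
    refine le_trans ?_ h6
    rw [mul_comm]
    refine mul_le_mul_of_nonneg_right ?_ h2.le
    rw [div_le_iff₀ hn]
    push_cast
    have h7 : (2 : ℝ) ≤ (d : ℝ) := by exact_mod_cast hd
    have h8 : (0 : ℝ) ≤ (n0 : ℝ) := Nat.cast_nonneg _
    nlinarith [mul_nonneg (by linarith : (0 : ℝ) ≤ (d : ℝ) - 1) h8]
  · have h3 : ((k : ℝ) + 6) / ((n0 : ℝ) + 7) ≤ 1 := by
      rw [div_le_one hn]
      have : (k : ℝ) ≤ (n0 : ℝ) + 1 := by exact_mod_cast hk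
      linarith
    calc Real.log 2 * (((k : ℝ) + 6) / ((n0 : ℝ) + 7)) ≤ Real.log 2 * 1 :=
          mul_le_mul_of_nonneg_left h3 h2.le
      _ = Real.log 2 := mul_one _
      _ ≤ Real.log (2 + (l : ℝ)) := Real.log_le_log (by norm_num) (by
          have : (0 : ℝ) ≤ (l : ℝ) := Nat.cast_nonneg _
          linarith)

theorem gauge_moment {C D : ℕ} {l : ℕ → ℕ} (hu : ∀ k, l k ≤ 2 ^ k * D)
    (hl : ∀ k, 2 ^ k ≤ C * l k) :
    Summable fun k => WW k * ((l k : ℝ) ^ 2 / Real.log (2 + (l k : ℝ)) ^ 6) := by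
  obtain ⟨n0, hC⟩ : ∃ n0 : ℕ, C ≤ 2 ^ n0 := ⟨C, Nat.lt_two_pow_self.le⟩
  have h2 : 0 < Real.log 2 := Real.log_pos (by norm_num)
  have hn : (0 : ℝ) < (n0 : ℝ) + 7 := by positivity
  set c : ℝ := Real.log 2 / ((n0 : ℝ) + 7) with hc
  have hc0 : 0 < c := div_pos h2 hn
  have hs : Summable fun k : ℕ => (D : ℝ) ^ 2 / (2592 * c ^ 6) * (1 / ((k : ℝ) + 6) ^ 2) := by
    refine Summable.mul_left _ ?_
    have h1 := (summable_nat_add_iff 6).2 (Real.summable_one_div_nat_pow.2 (by norm_num : 1 < 2))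
    simpa using h1
  refine Summable.of_nonneg_of_le (fun k => ?_) (fun k => ?_) hs
  · have h3 : (0 : ℝ) ≤ (l k : ℝ) := Nat.cast_nonneg _
    have h4 : 0 ≤ Real.log (2 + (l k : ℝ)) := Real.log_nonneg (by linarith)
    exact mul_nonneg (WW_pos k).le (by positivity)
  · have hk : (0 : ℝ) < (k : ℝ) + 6 := by positivity
    have h3 : c * ((k : ℝ) + 6) ≤ Real.log (2 + (l k : ℝ)) := by
      refine le_trans (le_of_eq ?_) (log_lower hC (hl k))
      rw [hc]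
      ring
    have h4 : 0 < c * ((k : ℝ) + 6) := mul_pos hc0 hk
    have h5 : (l k : ℝ) ≤ 2 ^ k * (D : ℝ) := by exact_mod_cast hu k
    have h6 : (l k : ℝ) ^ 2 ≤ (2 ^ k * (D : ℝ)) ^ 2 := pow_le_pow_left₀ (Nat.cast_nonneg _) h5 2
    have h7 : (c * ((k : ℝ) + 6)) ^ 6 ≤ Real.log (2 + (l k : ℝ)) ^ 6 :=
      pow_le_pow_left₀ h4.le h3 6
    have h8 : (l k : ℝ) ^ 2 / Real.log (2 + (l k : ℝ)) ^ 6 ≤
        (2 ^ k * (D : ℝ)) ^ 2 / (c * ((k : ℝ) + 6)) ^ 6 :=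
      div_le_div₀ (by positivity) h6 (by positivity) h7
    calc WW k * ((l k : ℝ) ^ 2 / Real.log (2 + (l k : ℝ)) ^ 6)
        ≤ RR k * ((2 ^ k * (D : ℝ)) ^ 2 / (c * ((k : ℝ) + 6)) ^ 6) := by
          refine mul_le_mul (WW_upper k) h8 ?_ (RR_pos k).le
          have h9 : 0 ≤ Real.log (2 + (l k : ℝ)) := h4.le.trans h3
          positivity
      _ = (D : ℝ) ^ 2 / (2592 * c ^ 6) * (1 / ((k : ℝ) + 6) ^ 2) := by
          unfold RR
          have h10 : (4 : ℝ) ^ k = (2 ^ k) ^ 2 := by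
            rw [← pow_mul, mul_comm, pow_mul]
            norm_num
          rw [h10]
          field_simp

end Pool.Agent.H34.CM
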