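import Pool.Agent.H34.CM.Defs
import Pool.Agent.H34.LS.W1

/-!
R2: a centered measure with finite second moment is nearly centered at all large scales, and so are its truncations. `s = min` of `(1/2) * ∑' mu g * hh g ^ 2` over `hh g > 0` and over `hh g < 0`, both positive: some `g` with `mu g ≠ 0` has `hh g ≠ 0`, and the mean is `0`,
so both signs occur (if e.g. all `hh g ≤ 0` on the support then the mean would be `< 0`). As `w → ∞` the sums over `8 H |g| ≤ w` converge to the full sums (summable families, all sets `{8 H |g| ≤ w}` exhaust; take a finite set of `g` with almost full sum), so for `w ≥ w0` they are `≥ s`; division by `Z ≤ 1`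
increases them. Mean: `∑_{short} mu g hh g = - ∑_{long} mu g hh g` (total `0`), of modulus at most `∑_{long} mu g H |g| ≤ (8 H^2 / w) ∑_{long} mu g |g|^2` (`w < 8 H |g|`), and the last sum tends to `0`; so `8 w |mean| ≤ 64 H^2 * tail ≤ s / 2` for `w ≥ w0`; division by
`Z ≥ 1/2` at most doubles it. For the finitely supported `P` with `P g = mu g / Z` for `|g| ≤ L` and `w ≤ L`: short elements (`8 H |g| ≤ w`) have `|g| ≤ w ≤ L`, so `P.sum (short ..) = ∑' g, (if short then mu g / Z * .. else 0)` (finite sum, the ball is finite: `ball_finite`;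
or `tsum_eq_sum` over the support of `P`, as `P g = 0` implies `mu g = 0` for short `g`).
-/

namespace Pool.Agent.H34.CM

open Pool.Agent.H34.LS Pool.Agent.H34.SM

universe u

variable {G : Type u} [Group G]

/-- the long part of the second moment tends to zero -/
private theorem r2_tail {mu : G → ℝ} (h0 : ∀ g, 0 ≤ mu g) {S : Set G}
    (hm : Summable fun g => mu g * (wordLength S g : ℝ) ^ 2) (H : ℕ) {ε : ℝ} (hε : 0 < ε) :
    ∃ w1 : ℕ, ∀ w, w1 ≤ w →
      ∑' g, (if 8 * H * wordLength S g ≤ w then 0 else mu g * (wordLength S g : ℝ) ^ 2) ≤ ε := by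
  have h1 : Filter.Tendsto (fun w : ℕ => ∑' g : G,
      (if 8 * H * wordLength S g ≤ w then (0 : ℝ) else mu g * (wordLength S g : ℝ) ^ 2))
      Filter.atTop (nhds (∑' _ : G, (0 : ℝ))) := by
    refine tendsto_tsum_of_dominated_convergence hm (fun g => ?_) (Filter.Eventually.of_forall
      fun w g => ?_)
    · refine tendsto_const_nhds.congr' ?_
      filter_upwards [Filter.eventually_ge_atTop (8 * H * wordLength S g)] with w hw
      rw [if_pos hw]
    · have h2 : 0 ≤ mu g * (wordLength S g : ℝ) ^ 2 := mul_nonneg (h0 g) (by positivity)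
      split_ifs
      · simpa using h2
      · rw [Real.norm_of_nonneg h2]
  rw [tsum_zero] at h1
  obtain ⟨w1, hw1⟩ := Filter.eventually_atTop.1 (h1.eventually (gt_mem_nhds hε))
  exact ⟨w1, fun w hw => (hw1 w hw).le⟩

private theorem r2_pos {mu : G → ℝ} (h0 : ∀ g, 0 ≤ mu g) {hh : G → ℤ}
    (hc : HasSum (fun g => mu g * (hh g : ℝ)) 0) (hne : ∃ g, mu g ≠ 0 ∧ hh g ≠ 0) :
    ∃ g, 0 < mu g ∧ 0 < hh g := by
  by_contra hcon
  push Not at hcon
  obtain ⟨g1, hg1, hg2⟩ := hne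
  have h1 : ∀ g, 0 ≤ -(mu g * (hh g : ℝ)) := by
    intro g
    rcases (h0 g).eq_or_lt with h | h
    · rw [← h, zero_mul, neg_zero]
    · have h2 : (hh g : ℝ) ≤ 0 := by exact_mod_cast hcon g h
      have h3 := mul_nonneg h.le (neg_nonneg.2 h2)
      linarith
  have h4 : HasSum (fun g => -(mu g * (hh g : ℝ))) 0 := by
    have := hc.neg
    rwa [neg_zero] at this
  have h5 := congrFun ((hasSum_zero_iff_of_nonneg h1).1 h4) g1
  have h6 : mu g1 * (hh g1 : ℝ) = 0 := by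
    have : -(mu g1 * (hh g1 : ℝ)) = 0 := h5
    linarith
  rcases mul_eq_zero.1 h6 with h | h
  · exact hg1 h
  · exact hg2 (by exact_mod_cast h)

private theorem r2_neg {mu : G → ℝ} (h0 : ∀ g, 0 ≤ mu g) {hh : G → ℤ}
    (hc : HasSum (fun g => mu g * (hh g : ℝ)) 0) (hne : ∃ g, mu g ≠ 0 ∧ hh g ≠ 0) :
    ∃ g, 0 < mu g ∧ hh g < 0 := by
  have h1 : HasSum (fun g => mu g * (((fun g => -hh g) g : ℤ) : ℝ)) 0 := by
    have h2 := hc.neg
    rw [neg_zero] at h2
    refine h2.congr_fun ?_ |> id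
    intro g
    push_cast
    ring
  obtain ⟨g, hg1, hg2⟩ := r2_pos h0 h1 (by
    obtain ⟨g1, hg1, hg2⟩ := hne
    exact ⟨g1, hg1, neg_ne_zero.2 hg2⟩)
  exact ⟨g, hg1, by simpa using hg2⟩

/-- one direction -/
private theorem r2_dir {mu : G → ℝ} (h0 : ∀ g, 0 ≤ mu g) {S : Set G} {hh : G → ℤ} {H : ℕ}
    (hH1 : 1 ≤ H) {P : G →₀ ℝ} {Z : ℝ} {L w : ℕ} (hZ1 : 1 / 2 ≤ Z) (hZ2 : Z ≤ 1)
    (hP : ∀ g, wordLength S g ≤ L → P g = mu g / Z) (hwL : w ≤ L) (p : G → Prop)
    [DecidablePred p] {g1 : G} (hg1 : 0 < mu g1) (hp : p g1) (hw : 8 * H * wordLength S g1 ≤ w) :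
    mu g1 * (hh g1 : ℝ) ^ 2 ≤ P.sum (fun g a =>
      if 8 * H * wordLength S g ≤ w ∧ p g then a * (hh g : ℝ) ^ 2 else 0) := by
  have hZ : 0 < Z := by linarith
  have hshort : ∀ g, 8 * H * wordLength S g ≤ w → P g = mu g / Z := by
    intro g hg
    refine hP g ?_
    have h1 : wordLength S g ≤ 8 * H * wordLength S g := by nlinarith
    omega
  have h2 : ∀ g, 0 ≤ (if 8 * H * wordLength S g ≤ w ∧ p g then P g * (hh g : ℝ) ^ 2 else 0) := by
    intro g
    split_ifs with h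
    · rw [hshort g h.1]
      exact mul_nonneg (div_nonneg (h0 g) hZ.le) (by positivity)
    · exact le_rfl
  have h3 : g1 ∈ P.support := by
    rw [Finsupp.mem_support_iff, hshort g1 hw]
    positivity
  have h4 : (if 8 * H * wordLength S g1 ≤ w ∧ p g1 then P g1 * (hh g1 : ℝ) ^ 2 else 0) ≤
      P.sum (fun g a => if 8 * H * wordLength S g ≤ w ∧ p g then a * (hh g : ℝ) ^ 2 else 0) :=
    Finset.single_le_sum
      (f := fun g => if 8 * H * wordLength S g ≤ w ∧ p g then P g * (hh g : ℝ) ^ 2 else 0)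
      (fun g _ => h2 g) h3
  refine le_trans ?_ h4
  rw [if_pos ⟨hw, hp⟩, hshort g1 hw]
  refine mul_le_mul_of_nonneg_right ?_ (by positivity)
  rw [le_div_iff₀ hZ]
  calc mu g1 * Z ≤ mu g1 * 1 := mul_le_mul_of_nonneg_left hZ2 hg1.le
    _ = mu g1 := mul_one _

/-- the mean -/
private theorem r2_mean {mu : G → ℝ} (h0 : ∀ g, 0 ≤ mu g) {S : Set G} (hSf : S.Finite)
    (hS : Subgroup.closure S = ⊤) (hm : Summable fun g => mu g * (wordLength S g : ℝ) ^ 2)
    {hh : G → ℤ} {H : ℕ} (hH1 : 1 ≤ H) (hH : ∀ g, |hh g| ≤ (H : ℤ) * (wordLength S g : ℤ))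
    (hc : HasSum (fun g => mu g * (hh g : ℝ)) 0) {P : G →₀ ℝ} {Z : ℝ} {L w : ℕ}
    (hZ1 : 1 / 2 ≤ Z)
    (hP : ∀ g, wordLength S g ≤ L → P g = mu g / Z) (hwL : w ≤ L) :
    (w : ℝ) * |P.sum (fun g a => if 8 * H * wordLength S g ≤ w then a * (hh g : ℝ) else 0)| ≤
      2 * (8 * (H : ℝ) ^ 2 *
        ∑' g, (if 8 * H * wordLength S g ≤ w then 0 else mu g * (wordLength S g : ℝ) ^ 2)) := by
  classical
  have hZ : 0 < Z := by linarith
  have hle : ∀ g, wordLength S g ≤ 8 * H * wordLength S g := fun g => by nlinarith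
  have hshort : ∀ g, 8 * H * wordLength S g ≤ w → P g = mu g / Z := by
    intro g hg
    have h1 := hle g
    exact hP g (by omega)
  obtain ⟨B, hB⟩ : ∃ B : Finset G, ∀ g, g ∈ B ↔ 8 * H * wordLength S g ≤ w := by
    have h1 : {g : G | 8 * H * wordLength S g ≤ w}.Finite :=
      (ball_finite hS hSf w).subset fun g (hg : 8 * H * wordLength S g ≤ w) => (hle g).trans hg
    exact ⟨h1.toFinset, fun g => by rw [Set.Finite.mem_toFinset]; exact Iff.rfl⟩
  have h2 : P.sum (fun g a => if 8 * H * wordLength S g ≤ w then a * (hh g : ℝ) else 0) =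
      Z⁻¹ * ∑ g ∈ B, mu g * (hh g : ℝ) := by
    rw [Finsupp.sum_of_support_subset P (Finset.subset_union_left (s₂ := B)) _ (by simp),
      Finset.mul_sum]
    have h3 : ∑ g ∈ P.support ∪ B, (if 8 * H * wordLength S g ≤ w then P g * (hh g : ℝ) else 0) =
        ∑ g ∈ B, (if 8 * H * wordLength S g ≤ w then P g * (hh g : ℝ) else 0) := by
      refine (Finset.sum_subset Finset.subset_union_right fun g _ hg => ?_).symm
      rw [hB] at hg
      exact if_neg hg
    rw [h3]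
    refine Finset.sum_congr rfl fun g hg => ?_
    rw [hB] at hg
    rw [if_pos hg, hshort g hg]
    ring
  have h4 : HasSum (fun g => if g ∈ B then mu g * (hh g : ℝ) else 0)
      (∑ g ∈ B, mu g * (hh g : ℝ)) := by
    have h5 : HasSum (fun g => if g ∈ B then mu g * (hh g : ℝ) else 0)
        (∑ g ∈ B, if g ∈ B then mu g * (hh g : ℝ) else 0) :=
      hasSum_sum_of_ne_finset_zero (fun b hb => if_neg hb)
    rwa [Finset.sum_congr rfl (fun h hh => if_pos hh)] at h5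
  have h6 := (hc.sub h4).mul_left (w : ℝ)
  have h7 : Summable fun g : G =>
      (if 8 * H * wordLength S g ≤ w then 0 else mu g * (wordLength S g : ℝ) ^ 2) := by
    refine Summable.of_nonneg_of_le (fun g => ?_) (fun g => ?_) hm
    · split_ifs
      · exact le_rfl
      · exact mul_nonneg (h0 g) (by positivity)
    · split_ifs
      · exact mul_nonneg (h0 g) (by positivity)
      · exact le_rfl
  have h8 := h7.hasSum.mul_left (8 * (H : ℝ) ^ 2)
  have h9 : ∀ g, |(w : ℝ) * (mu g * (hh g : ℝ) - if g ∈ B then mu g * (hh g : ℝ) else 0)| ≤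
      8 * (H : ℝ) ^ 2 *
        (if 8 * H * wordLength S g ≤ w then 0 else mu g * (wordLength S g : ℝ) ^ 2) := by
    intro g
    by_cases hg : 8 * H * wordLength S g ≤ w
    · rw [if_pos ((hB g).2 hg), if_pos hg, sub_self, mul_zero, mul_zero, abs_zero]
    · rw [if_neg (fun h => hg ((hB g).1 h)), if_neg hg, sub_zero, abs_mul, abs_mul,
        abs_of_nonneg (h0 g), abs_of_nonneg (Nat.cast_nonneg w)]
      have h10 : (w : ℝ) ≤ 8 * (H : ℝ) * (wordLength S g : ℝ) := by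
        exact_mod_cast (not_le.1 hg).le
      have h11 : |(hh g : ℝ)| ≤ (H : ℝ) * (wordLength S g : ℝ) := by
        exact_mod_cast hH g
      calc (w : ℝ) * (mu g * |(hh g : ℝ)|) ≤
            (8 * (H : ℝ) * (wordLength S g : ℝ)) * (mu g * ((H : ℝ) * (wordLength S g : ℝ))) :=
            mul_le_mul h10 (mul_le_mul_of_nonneg_left h11 (h0 g))
              (mul_nonneg (h0 g) (abs_nonneg _)) (by positivity)
        _ = _ := by ring
  have h12 := hasSum_le (fun g => (abs_le.1 (h9 g)).2) h6 h8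
  have h13 := hasSum_le (fun g => (abs_le.1 (h9 g)).1) h8.neg h6
  rw [zero_sub] at h12 h13
  obtain ⟨A, hA⟩ : ∃ A, A = ∑ g ∈ B, mu g * (hh g : ℝ) := ⟨_, rfl⟩
  obtain ⟨T, hT⟩ : ∃ T, T = 8 * (H : ℝ) ^ 2 *
      ∑' g, (if 8 * H * wordLength S g ≤ w then 0 else mu g * (wordLength S g : ℝ) ^ 2) := ⟨_, rfl⟩
  rw [h2]
  rw [← hA] at h12 h13 ⊢
  rw [← hT] at h12 h13 ⊢
  have h14 : (w : ℝ) * |A| ≤ T := by
    rw [← abs_of_nonneg (Nat.cast_nonneg (α := ℝ) w), ← abs_mul]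
    rw [abs_le]
    constructor
    · linarith
    · linarith
  have h15 : Z⁻¹ ≤ 2 := by
    rw [inv_le_comm₀ hZ (by norm_num)]
    linarith
  have h16 : 0 ≤ (w : ℝ) * |A| := by positivity
  rw [abs_mul, abs_of_pos (inv_pos.2 hZ)]
  calc (w : ℝ) * (Z⁻¹ * |A|) = Z⁻¹ * ((w : ℝ) * |A|) := by ring
    _ ≤ 2 * ((w : ℝ) * |A|) := mul_le_mul_of_nonneg_right h15 h16
    _ ≤ 2 * T := by linarith

theorem near_of {mu : G → ℝ} (h0 : ∀ g, 0 ≤ mu g) {S : Set G} (hSf : S.Finite)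
    (hS : Subgroup.closure S = ⊤) (hm : Summable fun g => mu g * (wordLength S g : ℝ) ^ 2)
    {hh : G → ℤ} {H : ℕ} (hH1 : 1 ≤ H) (hH : ∀ g, |hh g| ≤ (H : ℤ) * (wordLength S g : ℤ))
    (hc : HasSum (fun g => mu g * (hh g : ℝ)) 0) (hne : ∃ g, mu g ≠ 0 ∧ hh g ≠ 0) :
    ∃ (s : ℝ) (w0 : ℕ), 0 < s ∧ ∀ (P : G →₀ ℝ) (Z : ℝ) (L : ℕ), 1 / 2 ≤ Z → Z ≤ 1 →
      (∀ g, wordLength S g ≤ L → P g = mu g / Z) → ∀ w, w0 ≤ w → w ≤ L → Near P S H hh s w := by
  obtain ⟨gp, hp1, hp2⟩ := r2_pos h0 hc hne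
  obtain ⟨gn, hn1, hn2⟩ := r2_neg h0 hc hne
  have hp3 : 0 < mu gp * (hh gp : ℝ) ^ 2 := by
    have : (0 : ℝ) < hh gp := by exact_mod_cast hp2
    positivity
  have hn3 : 0 < mu gn * (hh gn : ℝ) ^ 2 := by
    have : (hh gn : ℝ) ≠ 0 := by exact_mod_cast hn2.ne
    positivity
  have hs : 0 < min (mu gp * (hh gp : ℝ) ^ 2) (mu gn * (hh gn : ℝ) ^ 2) := lt_min hp3 hn3
  have hH0 : (0 : ℝ) < H := by exact_mod_cast hH1
  obtain ⟨w1, hw1⟩ := r2_tail h0 hm H (ε := min (mu gp * (hh gp : ℝ) ^ 2)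
    (mu gn * (hh gn : ℝ) ^ 2) / (128 * (H : ℝ) ^ 2)) (by positivity)
  refine ⟨min (mu gp * (hh gp : ℝ) ^ 2) (mu gn * (hh gn : ℝ) ^ 2),
    max w1 (max (8 * H * wordLength S gp) (8 * H * wordLength S gn)), hs,
    fun P Z L hZ1 hZ2 hP w hw hwL => ⟨?_, ?_, ?_⟩⟩
  · have h1 := r2_mean h0 hSf hS hm hH1 hH hc hZ1 hP hwL
    have h2 := hw1 w ((le_max_left _ _).trans hw)
    rw [le_div_iff₀ (by positivity)] at h2
    linarith
  · exact (min_le_left _ _).trans (r2_dir h0 hH1 hZ1 hZ2 hP hwL (fun g => 0 < hh g) hp1 hp2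
      ((le_max_left _ _).trans ((le_max_right _ _).trans hw)))
  · exact (min_le_right _ _).trans (r2_dir h0 hH1 hZ1 hZ2 hP hwL (fun g => hh g < 0) hn1 hn2
      ((le_max_right _ _).trans ((le_max_right _ _).trans hw)))

end Pool.Agent.H34.CM
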