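import Pool.Agent.H34.CM.R1
import Pool.Agent.H34.SM.R1
import Pool.Agent.H34.SM.R3

/-!
R3: a nonconstant bounded harmonic function gives truncated measures with increments of the entropy bounded below. Copy of SM/R3 `incr_family` with `truncate2` in place of `truncate` (any `L`).
-/

namespace Pool.Agent.H34.CM

open Pool.Agent.H34.LS Pool.Agent.H34.RP Pool.Agent.H34.SM

universe u

variable {G : Type u} [Group G]

private theorem r3_exists {mu : G → ℝ} (hg : Generating mu) {u : G → ℝ} (hne : ∃ x y, u x ≠ u y) :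
    ∃ x g0, mu g0 ≠ 0 ∧ u (x * g0) ≠ u x := by
  by_contra hcon
  push Not at hcon
  have hall : ∀ g ∈ Submonoid.closure (Function.support mu), ∀ x, u (x * g) = u x := by
    intro g hg
    induction hg using Submonoid.closure_induction with
    | mem g hg => exact fun x => hcon x g hg
    | one => intro x; rw [mul_one]
    | mul a b _ _ iha ihb => intro x; rw [← mul_assoc, ihb, iha]
  obtain ⟨x, y, hxy⟩ := hne
  have h13 := hall (x⁻¹ * y) (by rw [hg]; exact Submonoid.mem_top _) x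
  rw [mul_inv_cancel_left] at h13
  exact hxy h13.symm

theorem incr_family2 {mu : G → ℝ} (h0 : ∀ g, 0 ≤ mu g) (h1 : HasSum mu 1) (hg : Generating mu)
    {S : Set G} (hSf : S.Finite) (hS : Subgroup.closure S = ⊤)
    (hm : Summable fun g => mu g * (wordLength S g : ℝ) ^ 2) {u : G → ℝ}
    (hu : ∃ C, ∀ g, |u g| ≤ C) (hh : ∀ g, HasSum (fun h => mu h * u (g * h)) (u g))
    (hne : ∃ x y, u x ≠ u y) :
    ∃ e : ℝ, 0 < e ∧ ∀ n L : ℕ, ∃ p : MonoidAlgebra ℝ G, PA p ∧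
      (∃ Z : ℝ, 1 / 2 ≤ Z ∧ Z ≤ 1 ∧ ∀ g, wordLength S g ≤ L → p.coeff g = mu g / Z) ∧
      mom2 S p.coeff ≤ 2 * ∑' g, mu g * (wordLength S g : ℝ) ^ 2 ∧
      ∀ m < n, e ≤ ent (p ^ (m + 1)) - ent (p ^ m) := by
  obtain ⟨x, g0, hg0, hx⟩ := r3_exists hg hne
  obtain ⟨C, hC0, hC⟩ : ∃ C : ℝ, 1 ≤ C ∧ ∀ g, |u g| ≤ C := by
    obtain ⟨C, hC⟩ := hu
    exact ⟨max C 1, le_max_right _ _, fun g => (hC g).trans (le_max_left _ _)⟩
  have hC1 : 0 < C := by linarith
  have hmu : 0 < mu g0 := lt_of_le_of_ne (h0 g0) (Ne.symm hg0)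
  have hδ : 0 < |u (x * g0) - u x| := abs_pos.2 (sub_ne_zero.2 hx)
  set δ : ℝ := |u (x * g0) - u x| with hδd
  refine ⟨mu g0 * δ ^ 2 / (16 * C ^ 2), by positivity, fun n L => ?_⟩
  have hn0 : (0 : ℝ) < 2 * (n : ℝ) + 1 := by positivity
  obtain ⟨p, hp, hZ, hmom, hpg, hav⟩ :=
    truncate2 h0 h1 hSf hS hm g0 (η := δ / (4 * C * (2 * n + 1))) (by positivity) L
  refine ⟨p, hp, hZ, hmom, fun m hmn => ?_⟩
  have hε := hav u C hC hh
  have hε2 : 2 * C * (δ / (4 * C * (2 * (n : ℝ) + 1))) = δ / (2 * (2 * n + 1)) := by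
    field_simp
    ring
  have hmn' : (m : ℝ) ≤ n := by exact_mod_cast hmn.le
  have h5 : (2 * (m : ℝ) + 1) * (2 * C * (δ / (4 * C * (2 * (n : ℝ) + 1)))) ≤ δ / 2 := by
    rw [hε2]
    calc (2 * (m : ℝ) + 1) * (δ / (2 * (2 * n + 1)))
        ≤ (2 * (n : ℝ) + 1) * (δ / (2 * (2 * n + 1))) :=
          mul_le_mul_of_nonneg_right (by linarith) (by positivity)
      _ = δ / 2 := by field_simp
  have h6 := incr_ge hp hC1 hC hε hδ.le le_rfl m h5
  have h7 : mu g0 * δ ^ 2 ≤ 16 * C ^ 2 * (ent (p ^ (m + 1)) - ent (p ^ m)) :=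
    (mul_le_mul_of_nonneg_right hpg (sq_nonneg δ)).trans h6
  rw [div_le_iff₀ (by positivity)]
  linarith

end Pool.Agent.H34.CM
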