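import Pool.Agent.H34.RP.Stm
import Pool.Agent.H34.DC.J2

/-!
V: change of the generating set of the windows. Each element of the finite set `S1` is a word in `S` and inverses; with `B` a bound of the moduli of the heights of the prefixes of these words `window f S1 n ⊆ window f S (n + B)` (concatenate the words; `rch_sub` (DC/J2) for a finitely supported `P` with support `S1 ∪ S1⁻¹`
gives the same with `Rch`; or directly as in DC/J2a). For `2^j ≥ B`: `window f S1 (2^j) ⊆ window f S (2^(j+1))`, so `log |window f S1 (2^j)| / 4^j ≤ 4 * (log |window f S (2^(j+1))| / 4^(j+1))` and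
`exp (-(4 c) K (j+1)) ≤ exp (-c K1 j)` for large `j`; summability for `S1` and `c` would give it for `S` and `4 c` (`summable_nat_add_iff`). (If `window f S1 (2^j)` is empty there is nothing to prove; it contains `1`.)
-/

namespace Pool.Agent.H34.CM

open Pool.Agent.H34.LS Pool.Agent.H34.RP Pool.Agent.H34.DC

universe u

variable {G : Type u} [Group G]

private theorem v_mono (f : G →* Multiplicative ℤ) (S : Set G) {a b : ℕ} (h : a ≤ b) :
    window f S a ⊆ window f S b := by
  rintro x ⟨l, h1, h2, h3⟩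
  refine ⟨l, h1, h2, fun k => (h3 k).trans ?_⟩
  exact_mod_cast h

private theorem v_sub (f : G →* Multiplicative ℤ) {S : Set G} (hS : Subgroup.closure S = ⊤)
    {S1 : Set G} (hS1 : S1.Finite) :
    ∃ B : ℕ, ∀ w : ℕ, window f S1 w ⊆ window f S (w + B) := by
  classical
  have hf : (S1 ∪ S1⁻¹).Finite := hS1.union hS1.inv
  obtain ⟨B, hB⟩ := rch_sub f hS (Finsupp.indicator hf.toFinset (fun _ _ => (1 : ℝ)))
  refine ⟨B, fun w => Set.Subset.trans ?_ (hB w)⟩
  rintro x ⟨l, h1, h2, h3⟩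
  refine ⟨l, fun g hg => ?_, h2, h3⟩
  have hm : g ∈ hf.toFinset := by
    rw [Set.Finite.mem_toFinset]
    rcases h1 g hg with h | h
    · exact Or.inl h
    · exact Or.inr (Set.mem_inv.2 h)
  rw [Finsupp.indicator_of_mem hm]
  exact one_ne_zero

private theorem v_log {a b : ℕ} (h : a ≤ b) : Real.log (a : ℝ) ≤ Real.log (b : ℝ) := by
  rcases Nat.eq_zero_or_pos a with h0 | h0
  · rw [h0, Nat.cast_zero, Real.log_zero]
    exact Real.log_natCast_nonneg b
  · exact Real.log_le_log (by exact_mod_cast h0) (by exact_mod_cast h)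

theorem win_change (f : G →* Multiplicative ℤ) {S : Set G} (hS : Subgroup.closure S = ⊤)
    (hfin : ∀ n, (window f S n).Finite)
    (hdiv : Diverges (fun j => Real.log ((window f S (2 ^ j)).ncard : ℝ) / 4 ^ j)) {S1 : Set G}
    (hS1 : S1.Finite) :
    (∀ n, (window f S1 n).Finite) ∧
      Diverges (fun j => Real.log ((window f S1 (2 ^ j)).ncard : ℝ) / 4 ^ j) := by
  obtain ⟨B, hB⟩ := v_sub f hS hS1
  refine ⟨fun n => (hfin (n + B)).subset (hB n), ?_⟩
  intro c hc hsum
  refine hdiv (4 * c) (by positivity) ?_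
  obtain ⟨j0, hj0⟩ : ∃ j0 : ℕ, B ≤ 2 ^ j0 := ⟨B, Nat.lt_two_pow_self.le⟩
  have h1 : Summable fun j : ℕ =>
      Real.exp (-(c * (Real.log ((window f S1 (2 ^ (j + j0))).ncard : ℝ) / 4 ^ (j + j0)))) :=
    (summable_nat_add_iff (f := fun j : ℕ =>
      Real.exp (-(c * (Real.log ((window f S1 (2 ^ j)).ncard : ℝ) / 4 ^ j)))) j0).2 hsum
  refine (summable_nat_add_iff (f := fun j : ℕ =>
      Real.exp (-(4 * c * (Real.log ((window f S (2 ^ j)).ncard : ℝ) / 4 ^ j)))) (j0 + 1)).1 ?_
  refine Summable.of_nonneg_of_le (fun j => (Real.exp_pos _).le) (fun j => ?_) h1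
  rw [Real.exp_le_exp, neg_le_neg_iff]
  have h2 : 2 ^ (j + j0) + B ≤ 2 ^ (j + (j0 + 1)) := by
    have h3 : 2 ^ j0 ≤ 2 ^ (j + j0) := Nat.pow_le_pow_right (by norm_num) (by omega)
    have h4 : 2 ^ (j + (j0 + 1)) = 2 ^ (j + j0) + 2 ^ (j + j0) := by
      rw [← add_assoc, pow_succ]
      ring
    omega
  have h3 : window f S1 (2 ^ (j + j0)) ⊆ window f S (2 ^ (j + (j0 + 1))) :=
    (hB _).trans (v_mono f S h2)
  have h4 := v_log (Set.ncard_le_ncard h3 (hfin _))
  have h5 : (4 : ℝ) ^ (j + (j0 + 1)) = 4 * 4 ^ (j + j0) := by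
    rw [← add_assoc, pow_succ]
    ring
  have h6 : (0 : ℝ) < 4 ^ (j + j0) := by positivity
  have h7 : 4 * c * (Real.log ((window f S (2 ^ (j + (j0 + 1)))).ncard : ℝ) /
      4 ^ (j + (j0 + 1))) =
      c * (Real.log ((window f S (2 ^ (j + (j0 + 1)))).ncard : ℝ) / 4 ^ (j + j0)) := by
    rw [h5]
    field_simp
  rw [h7]
  exact mul_le_mul_of_nonneg_left (div_le_div_of_nonneg_right h4 h6.le) hc.le

end Pool.Agent.H34.CM
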