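import Pool.Agent.H34.CM.Q
import Pool.Agent.H34.CM.R2
import Pool.Agent.H34.CM.R3
import Pool.Agent.H34.CM.V
import Pool.Agent.H34.SM.N
import Pool.Agent.H34.SM.C
import Pool.Agent.H34.FL.A
import Pool.Agent.H34.DC.Fin

/-!
Z: centered measures with finite second moment under small windows. `S1` the finite generating set of `SecondMoment`; `win_change`. `H` from `exists_H` (SM/C) for `S1`. If `f g = 1` for all `g` with `mu g ≠ 0`, then `f` is trivial (`mu` generates, `Submonoid.closure_le`, `MonoidHom.mker`), so every element lies in `window f S1 0`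
(all prefixes have height `0`; `wl_exists`), `G` is finite, and `fin_inv` (FL/A) with `N = ⊤` gives the claim. Otherwise: let `u` be bounded, harmonic, nonconstant. `incr_family2`: `e`; `near_of`: `s, w0`; `crit2` with `M = 2 * tsum`, `e`, `s`, `w0`: `J, N`. `p` from `incr_family2` with `n = N`, `L = 2^J`. `P = p.coeff` is `Prb`
(`prb_of_pa`, SM/N), `Near` at all `w0 ≤ w ≤ 2^J`, `mom2 ≤ M`, and `e * t ≤ fent (pw P t)` for `t ≤ N`: `ent (p^t) = ∑_{m<t} (ent (p^(m+1)) - ent (p^m)) + ent (p^0) ≥ e t` (`Finset.sum_range_sub`, `ent` of `1` is `0`), `ent (p ^ t) = fent (pw P t)` (`pw_coeff`, `n_ent` in SM/N). Contradiction to `crit2`.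
`mean f mu = 0` with finite second moment gives `HasSum (mu g * f g) 0` (`|f g| ≤ H |g| ≤ H |g|^2`).
-/

namespace Pool.Agent.H34.CM

open Pool.Agent.H34.LS Pool.Agent.H34.RP Pool.Agent.H34.SM Pool.Agent.H34.DC

universe u

variable {G : Type u} [Group G]

private theorem z_ent {p : MonoidAlgebra ℝ G} (hp : PA p) {e : ℝ} {n : ℕ}
    (hinc : ∀ m < n, e ≤ ent (p ^ (m + 1)) - ent (p ^ m)) (t : ℕ) (ht : t ≤ n) :
    e * t ≤ fent (pw p.coeff t) := by
  have hent : ∀ m, ent (p ^ m) = fent (pw p.coeff m) := by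
    intro m
    unfold ent
    rw [pw_coeff]
  induction t with
  | zero =>
    have h1 := fent_pw_nonneg (prb_of_pa hp) 0
    simpa using h1
  | succ t ih =>
    have h1 := ih (by omega)
    have h2 := hinc t (by omega)
    rw [hent, hent] at h2
    push_cast
    linarith

private theorem z_triv (f : G →* Multiplicative ℤ) {mu : G → ℝ} (hg : Generating mu)
    (ht : ∀ g, mu g ≠ 0 → Multiplicative.toAdd (f g) = 0) (g : G) : f g = 1 := by
  have h1 : Submonoid.closure (Function.support mu) ≤ MonoidHom.mker f := by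
    rw [Submonoid.closure_le]
    intro x hx
    rw [SetLike.mem_coe, MonoidHom.mem_mker]
    exact ht x hx
  have h2 : g ∈ Submonoid.closure (Function.support mu) := by
    rw [show Submonoid.closure (Function.support mu) = ⊤ from hg]
    exact Submonoid.mem_top g
  exact MonoidHom.mem_mker.1 (h1 h2)

private theorem z_fin (f : G →* Multiplicative ℤ) {S : Set G} (hS : Subgroup.closure S = ⊤)
    (hfin : ∀ n, (window f S n).Finite) (ht : ∀ g, f g = 1) : (Set.univ : Set G).Finite := by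
  refine (hfin 0).subset fun g _ => ?_
  obtain ⟨l, _, hl, hp⟩ := wl_exists hS g
  refine ⟨l, hl, hp, fun k => ?_⟩
  rw [ht]
  simp

private theorem z_sum (f : G →* Multiplicative ℤ) {S : Set G} {mu : G → ℝ}
    (hp : ∀ g, 0 ≤ mu g) (hsum : Summable fun g => mu g * (wordLength S g : ℝ) ^ 2) {H : ℕ}
    (hH : ∀ g, |Multiplicative.toAdd (f g)| ≤ (H : ℤ) * (wordLength S g : ℤ))
    (h0 : DA.mean f mu = 0) :
    HasSum (fun g => mu g * ((Multiplicative.toAdd (f g) : ℤ) : ℝ)) 0 := by
  have h1 : Summable (fun g => mu g * ((Multiplicative.toAdd (f g) : ℤ) : ℝ)) := by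
    refine Summable.of_norm_bounded (hsum.mul_left (H : ℝ)) fun g => ?_
    have h2 : |((Multiplicative.toAdd (f g) : ℤ) : ℝ)| ≤ (H : ℝ) * (wordLength S g : ℝ) := by
      have h3 := hH g
      rw [← Int.cast_abs]
      exact_mod_cast h3
    have h4 : (wordLength S g : ℝ) ≤ (wordLength S g : ℝ) ^ 2 := by
      have h5 : wordLength S g ≤ wordLength S g ^ 2 := Nat.le_self_pow two_ne_zero _
      exact_mod_cast h5
    rw [norm_mul, Real.norm_of_nonneg (hp g), Real.norm_eq_abs]
    calc mu g * |((Multiplicative.toAdd (f g) : ℤ) : ℝ)|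
        ≤ mu g * ((H : ℝ) * (wordLength S g : ℝ) ^ 2) := by
          refine mul_le_mul_of_nonneg_left (h2.trans ?_) (hp g)
          exact mul_le_mul_of_nonneg_left h4 (Nat.cast_nonneg _)
      _ = (H : ℝ) * (mu g * (wordLength S g : ℝ) ^ 2) := by ring
  have h2 := h1.hasSum
  unfold DA.mean at h0
  rwa [h0] at h2

theorem centered_sm (f : G →* Multiplicative ℤ) {S : Set G} (hS : SmallWindows f S) {mu : G → ℝ}
    (h : FL.IsProb mu) (hg : Generating mu) (hm : SecondMoment mu) (h0 : DA.mean f mu = 0) :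
    FL.Liouville mu := by
  intro u hu x y
  obtain ⟨S1, hS1f, hS1, hsum⟩ := hm
  obtain ⟨hfin1, hdiv1⟩ := win_change f hS.gen hS.finite hS.diverges hS1f
  obtain ⟨H, hH1, hH⟩ := exists_H f hS1f hS1
  by_cases ht : ∀ g, mu g ≠ 0 → Multiplicative.toAdd (f g) = 0
  · have h1 := z_triv f hg ht
    have h2 := z_fin f hS1 hfin1 h1
    have h3 : ∀ n : G, u (1 * n) = u 1 := fun n =>
      FL.fin_inv h hg hu (N := (⊤ : Subgroup G)) inferInstance (by simpa using h2) 1
        (Subgroup.mem_top n)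
    have hx := h3 x
    have hy := h3 y
    rw [one_mul] at hx hy
    rw [hx, hy]
  · by_contra hne
    push Not at ht
    have hc := z_sum f h.1 hsum hH h0
    obtain ⟨s, w0, hs, hnear⟩ := near_of h.1 hS1f hS1 hsum hH1 hH hc ht
    obtain ⟨e, he, hfam⟩ := incr_family2 h.1 h.2 hg hS1f hS1 hsum hu.1 hu.2 ⟨x, y, hne⟩
    have hM : 0 ≤ 2 * ∑' g, mu g * (wordLength S1 g : ℝ) ^ 2 :=
      mul_nonneg (by norm_num) (tsum_nonneg fun g => mul_nonneg (h.1 g) (by positivity))
    obtain ⟨J, N, hcrit⟩ := crit2 f hS1f hS1 hfin1 hdiv1 hH1 hH he hM hs w0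
    obtain ⟨p, hp, ⟨Z, hZ1, hZ2, hZ⟩, hmom, hinc⟩ := hfam N (2 ^ J)
    exact hcrit p.coeff (prb_of_pa hp)
      (fun w hw hw2 => hnear p.coeff Z (2 ^ J) hZ1 hZ2 hZ w hw hw2) hmom
      (fun t ht => z_ent hp hinc t ht)

end Pool.Agent.H34.CM
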