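import Pool.Agent.H34.CM.M1
import Pool.Agent.H34.CM.M2
import Pool.Agent.H34.CM.M3
import Pool.Agent.H34.CM.Z
import Pool.Agent.H34.DA.Fin

/-!
MT: the exact moment threshold, for all measures with finite second moment.
-/

namespace Pool.Agent.H34.CM

open Pool.Agent.H34.LS Pool.Agent.H34.FL Pool.Agent.H34.DA Pool.Agent.H34.MI Filter Topology

open Pool.Agent.H34.DC (Onto SmallWindows)

/-- a symmetric measure with all moments below two on a group over `GG` (as in SM/Fin). -/
theorem below_two {G : Type} [Group G] (theta : G →* GG) (hsurj : Function.Surjective theta)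
    (hlift : ∀ mu' : GG → ℝ, IsFSProb mu' → Generating mu' → Symm mu' →
      ∃ mu : G → ℝ, IsFSProb mu ∧ Generating mu ∧ Symm mu ∧ push theta mu = mu') :
    ∃ mu : G → ℝ, IsProb mu ∧ Generating mu ∧ Symm mu ∧
      (∀ S : Set G, S.Finite → Subgroup.closure S = ⊤ → ∀ p : ℝ, 0 ≤ p → p < 2 →
        Summable fun g => mu g * (wordLength S g : ℝ) ^ p) ∧
      (∀ S : Set G, S.Finite → Subgroup.closure S = ⊤ →
        Summable fun g => mu g * ((wordLength S g : ℝ) ^ 2 /
          Real.log (2 + (wordLength S g : ℝ)) ^ 6)) ∧ ¬ Liouville mu := by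
  obtain ⟨nu', hnu, hgen, hsym, hpush⟩ := hlift nu nu_fs nu_gen nu_symm
  obtain ⟨t, ht⟩ := hsurj gT
  set i : ℕ → G := fun k => t ^ (2 ^ k) with hi
  set j : ℕ → G := fun k => (t ^ (2 ^ k))⁻¹ with hj
  have hti : ∀ k, theta (i k) = gT ^ (2 ^ k) := fun k => by
    rw [hi]
    dsimp only
    rw [map_pow, ht]
  have hii : Function.Injective i := by
    intro k l hkl
    have h1 : Multiplicative.toAdd (hgt (theta (i k))) = Multiplicative.toAdd (hgt (theta (i l))) := by
      rw [hkl]
    rw [hti, hti, map_pow hgt, map_pow hgt, toAdd_pow, toAdd_pow, hgt_T] at h1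
    simp only [nsmul_eq_mul, mul_one, Nat.cast_inj] at h1
    exact Nat.pow_right_injective le_rfl h1
  have hji : Function.Injective j := fun k l hkl => hii (inv_injective hkl)
  set mu : G → ℝ := fun g => 1 / 2 * nu' g + 1 / 2 * (Function.extend i WW 0 g +
    Function.extend j WW 0 g) with hmu
  have hWn : ∀ k, 0 ≤ WW k := fun k => (WW_pos k).le
  have hint : ∀ (φ : G → ℝ) (a b c : ℝ), HasSum (fun g => nu' g * φ g) a →
      HasSum (fun k => WW k * φ (i k)) b → HasSum (fun k => WW k * φ (j k)) c →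
      HasSum (fun g => mu g * φ g) (1 / 2 * a + 1 / 2 * (b + c)) := by
    intro φ a b c ha hb hc
    have h1 := (ha.mul_left (1 / 2)).add
      ((((ext_hasSum hii WW φ).2 hb).add ((ext_hasSum hji WW φ).2 hc)).mul_left (1 / 2))
    refine h1.congr_fun fun g => ?_
    rw [hmu]
    ring
  have hnusum : HasSum (fun g => nu' g * 1) 1 := by
    have h1 : HasSum (fun y => push theta nu' y * 1) 1 := by
      rw [hpush]
      have h2 := nu_hasSum fun _ => 1
      norm_num at h2 ⊢
      exact h2
    exact push_hasSum theta hnu.finite (fun _ => 1) h1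
  refine ⟨mu, ⟨fun g => ?_, ?_⟩, ?_, ?_, ?_, ?_, ?_⟩
  · have h1 := hnu.nonneg g
    have h2 := ext_nonneg hii hWn g
    have h3 := ext_nonneg hji hWn g
    rw [hmu]
    dsimp only
    linarith
  · have h1 := hint (fun _ => 1) 1 (1 / 2) (1 / 2) hnusum (by simpa using WW_hasSum)
      (by simpa using WW_hasSum)
    norm_num at h1
    exact h1
  · unfold Generating at hgen ⊢
    refine top_le_iff.1 ?_
    rw [← hgen]
    refine Submonoid.closure_mono fun g hg => ?_
    rw [Function.mem_support] at hg ⊢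
    have h1 : 0 < nu' g := lt_of_le_of_ne (hnu.nonneg g) (Ne.symm hg)
    have h2 := ext_nonneg hii hWn g
    have h3 := ext_nonneg hji hWn g
    rw [hmu]
    dsimp only
    have : 0 < 1 / 2 * nu' g + 1 / 2 * (Function.extend i WW 0 g + Function.extend j WW 0 g) := by
      linarith
    exact this.ne'
  · intro g
    rw [hmu]
    dsimp only
    rw [hsym g, ext_inv hii hji (fun _ => rfl) WW g,
      ext_inv hji hii (fun k => (inv_inv _).symm) WW g]
    ring
  · intro S hSf hS p hp0 hp
    have hs1 : Summable fun g => nu' g * (wordLength S g : ℝ) ^ p := by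
      refine summable_of_hasFiniteSupport (hnu.finite.subset fun g hg => ?_)
      rw [Function.mem_support] at hg ⊢
      exact left_ne_zero_of_mul hg
    have hs2 : Summable fun k => WW k * (wordLength S (i k) : ℝ) ^ p :=
      moment t hp0 hp fun k => wl_pow hS t (2 ^ k)
    have hs3 : Summable fun k => WW k * (wordLength S (j k) : ℝ) ^ p := by
      refine moment t hp0 hp fun k => ?_
      have h1 : wordLength S (j k) = wordLength S (i k) := wl_inv hS (i k)
      rw [h1]
      exact wl_pow hS t (2 ^ k)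
    exact (hint (fun g => (wordLength S g : ℝ) ^ p) _ _ _ hs1.hasSum hs2.hasSum hs3.hasSum).summable
  · intro S hSf hS
    obtain ⟨C, hC⟩ := ht_le (hgt.comp theta) hSf hS
    have hlow : ∀ k, 2 ^ k ≤ C * wordLength S (i k) := by
      intro k
      have h1 := hC (i k)
      have h2 : Multiplicative.toAdd ((hgt.comp theta) (i k)) = 2 ^ k := by
        rw [MonoidHom.comp_apply, hti, map_pow, toAdd_pow, hgt_T]
        simp
      rw [h2] at h1
      have h3 : |(((2 : ℤ) ^ k : ℤ) : ℝ)| = (2 : ℝ) ^ k := by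
        push_cast
        exact abs_of_pos (by positivity)
      rw [h3] at h1
      exact_mod_cast h1
    have hs1 : Summable fun g => nu' g * ((wordLength S g : ℝ) ^ 2 /
        Real.log (2 + (wordLength S g : ℝ)) ^ 6) := by
      refine summable_of_hasFiniteSupport (hnu.finite.subset fun g hg => ?_)
      rw [Function.mem_support] at hg ⊢
      exact left_ne_zero_of_mul hg
    have hs2 := gauge_moment (l := fun k => wordLength S (i k)) (fun k => wl_pow hS t (2 ^ k)) hlow
    have hw3 : ∀ k, wordLength S (j k) = wordLength S (i k) := fun k => wl_inv hS (i k)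
    have hs3 : Summable fun k => WW k * ((wordLength S (j k) : ℝ) ^ 2 /
        Real.log (2 + (wordLength S (j k) : ℝ)) ^ 6) := by
      simp only [hw3]
      exact hs2
    exact (hint (fun g => (wordLength S g : ℝ) ^ 2 / Real.log (2 + (wordLength S g : ℝ)) ^ 6)
      _ _ _ hs1.hasSum hs2.hasSum hs3.hasSum).summable
  · intro hL
    obtain ⟨w, hw1, hwne, hw⟩ := exists_ww
    have hne : ∃ x y : G, (fun g : G => w ((theta g : Equiv.Perm XX)⁻¹ x0)) x ≠
        (fun g : G => w ((theta g : Equiv.Perm XX)⁻¹ x0)) y := by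
      obtain ⟨b, hb⟩ := hsurj gB
      refine ⟨1, b, ?_⟩
      dsimp only
      rw [map_one, hb]
      have h1 : ((gB : Equiv.Perm XX))⁻¹ x0 = bX x0 := rfl
      rw [h1]
      exact hwne
    obtain ⟨x, y, hxy⟩ := hne
    refine hxy (hL (fun g => w ((theta g : Equiv.Perm XX)⁻¹ x0)) ⟨⟨1, fun g => hw1 _⟩,
      fun g => ?_⟩ x y)
    set q : XX := (theta g : Equiv.Perm XX)⁻¹ x0 with hq
    set φ : GG → ℝ := fun y => w ((y : Equiv.Perm XX)⁻¹ q) with hφ
    have hmul : ∀ h, w ((theta (g * h) : Equiv.Perm XX)⁻¹ x0) = φ (theta h) := by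
      intro h
      rw [hφ]
      dsimp only
      rw [map_mul, Subgroup.coe_mul, mul_inv_rev, Equiv.Perm.mul_apply, ← hq]
    have hTk : ∀ k : ℕ, ((gT ^ (2 ^ k) : GG) : Equiv.Perm XX) = tX (2 ^ k) := by
      intro k
      have h1 := tX_zpow ((2 ^ k : ℕ) : ℤ)
      rw [zpow_natCast] at h1
      rw [Subgroup.coe_pow]
      push_cast at h1
      exact h1
    have hφi : ∀ k, φ (theta (i k)) = w ((tX (2 ^ k)).symm q) := by
      intro k
      rw [hti, hφ]
      dsimp only
      rw [hTk]
      rfl
    have hφj : ∀ k, φ (theta (j k)) = w (tX (2 ^ k) q) := by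
      intro k
      have h1 : theta (j k) = (gT ^ (2 ^ k))⁻¹ := by
        rw [← hti, ← map_inv]
      rw [h1, hφ]
      dsimp only
      rw [Subgroup.coe_inv, inv_inv, hTk]
    have hbdd : ∀ v : ℕ → ℝ, (∀ k, |v k| ≤ 1) → Summable fun k => WW k * v k := by
      intro v hv
      refine Summable.of_norm_bounded WW_hasSum.summable fun k => ?_
      rw [norm_mul, Real.norm_eq_abs, Real.norm_eq_abs, abs_of_nonneg (hWn k)]
      have := mul_le_mul_of_nonneg_left (hv k) (hWn k)
      rwa [mul_one] at this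
    have hsi := (hbdd (fun k => w ((tX (2 ^ k)).symm q)) fun k => hw1 _).hasSum
    have hsj := (hbdd (fun k => w (tX (2 ^ k) q)) fun k => hw1 _).hasSum
    have hA := hint (fun h => φ (theta h)) _ _ _
      (push_hasSum theta hnu.finite φ (by rw [hpush]; exact nu_hasSum φ))
      (by simp only [hφi]; exact hsi) (by simp only [hφj]; exact hsj)
    have hB := hw q
    have hC : HasSum (fun k => WW k / 2 * (w (tX (2 ^ k) q) + w ((tX (2 ^ k)).symm q)))
        (1 / 2 * ((∑' k, WW k * w ((tX (2 ^ k)).symm q)) + ∑' k, WW k * w (tX (2 ^ k) q))) := by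
      refine ((hsi.add hsj).mul_left (1 / 2)).congr_fun fun k => ?_
      ring
    have hD := hB.unique hC
    have e1 : φ gA = w (aX q) := rfl
    have e2 : φ gB = w (bX q) := rfl
    have e3 : φ gT = w ((tX 1).symm q) := rfl
    have e4 : φ gT⁻¹ = w (tX 1 q) := rfl
    rw [← hD, e1, e2, e3, e4] at hA
    have hE : w q = 1 / 2 * (1 / 4 * (w (aX q) + w (bX q) + w ((tX 1).symm q) + w (tX 1 q))) +
        (w q - 1 / 8 * (w (aX q) + w (bX q) + w (tX 1 q) + w ((tX 1).symm q))) := by ring
    simp only [hmul]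
    rw [hE]
    exact hA

theorem mean_symm {G : Type} [Group G] (f : G →* Multiplicative ℤ) {mu : G → ℝ}
    (hs : Symm mu) : mean f mu = 0 := by
  unfold mean
  have h1 : ∑' g, mu g * ((Multiplicative.toAdd (f g) : ℤ) : ℝ) =
      ∑' g, - (mu g * ((Multiplicative.toAdd (f g) : ℤ) : ℝ)) := by
    rw [← (Equiv.inv G).tsum_eq]
    refine tsum_congr fun g => ?_
    rw [Equiv.inv_apply, hs g, map_inv, toAdd_inv]
    push_cast
    ring
  rw [tsum_neg] at h1
  linarith

theorem moment_threshold2 :
    ∃ (G : Type) (_ : Group G) (f : G →* Multiplicative ℤ), Group.FG G ∧ LocFinByZ G ∧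
      LacunaryHyperbolic G ∧ Function.Surjective f ∧
      (∃ mu : G → ℝ, IsFSProb mu ∧ Generating mu ∧ Symm mu ∧ mean f mu = 0) ∧
      (∃ mu : G → ℝ, IsFSProb mu ∧ Generating mu ∧ mean f mu ≠ 0) ∧
      (∀ mu : G → ℝ, IsProb mu → Generating mu → SecondMoment mu →
        (Liouville mu ↔ mean f mu = 0)) ∧
      (∀ mu : G → ℝ, IsProb mu → Generating mu → SecondMoment mu → Symm mu → Liouville mu) ∧
      (∀ mu : G → ℝ, IsProb mu → Generating mu → FirstMoment mu → mean f mu ≠ 0 →
        ¬ Liouville mu) ∧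
      ∃ mu : G → ℝ, IsProb mu ∧ Generating mu ∧ Symm mu ∧ mean f mu = 0 ∧
        (∀ S : Set G, S.Finite → Subgroup.closure S = ⊤ → ∀ p : ℝ, 0 ≤ p → p < 2 →
          Summable fun g => mu g * (wordLength S g : ℝ) ^ p) ∧
        (∀ S : Set G, S.Finite → Subgroup.closure S = ⊤ →
          Summable fun g => mu g * ((wordLength S g : ℝ) ^ 2 /
            Real.log (2 + (wordLength S g : ℝ)) ^ 6)) ∧ ¬ Liouville mu := by
  obtain ⟨G, iG, theta, hlac, _, hloc, hsurj, _, hmu, hlift⟩ :=
    lift_limit GG (limit_of_locFin gg_fg gg_locFinByZ)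
  have hfg : Group.FG G := by
    obtain ⟨S, hS, hS2, _⟩ := hlac
    exact ⟨⟨hS.toFinset, by simpa using hS2⟩⟩
  have hf : Function.Surjective (hgt.comp theta) := by
    rw [MonoidHom.coe_comp]
    exact hgt_surj.comp hsurj
  have hdrift : ∀ mu : G → ℝ, IsProb mu → Generating mu → FirstMoment mu →
      mean (hgt.comp theta) mu ≠ 0 → ¬ Liouville mu := by
    intro mu h hg hm hd
    rw [(hmu mu h hg).2]
    refine drift_first hgt gg_onto.surj gg_onto.locfin gg_onto.infinite (image_prob theta h)
      (image_first theta hsurj h hm) ?_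
    rw [image_mean theta hgt h hm]
    exact hd
  have hcent : ∀ mu : G → ℝ, IsProb mu → Generating mu → SecondMoment mu →
      mean (hgt.comp theta) mu = 0 → Liouville mu := by
    intro mu h hg hm h0
    rw [(hmu mu h hg).2]
    refine centered_sm hgt gg_small (image_prob theta h) (image_gen theta hsurj h hg)
      (image_second theta hsurj h hm) ?_
    rw [image_mean theta hgt h (first_of_second h hm)]
    exact h0
  refine ⟨G, iG, hgt.comp theta, hfg, hloc gg_locFinByZ, hlac, hf, ?_, ?_, ?_, ?_, hdrift, ?_⟩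
  · obtain ⟨mu, h1, h2, h3⟩ := exists_symm hfg
    exact ⟨mu, h1, h2, h3, by rw [mean_eq _ h1, Pool.Agent.H34.DC.drift_symm _ h3]⟩
  · obtain ⟨mu, h1, h2, h3⟩ := Pool.Agent.H34.DC.exists_drift hfg (hgt.comp theta) hf
    exact ⟨mu, h1, h2, by rw [mean_eq _ h1]; exact h3⟩
  · intro mu h hg hm
    constructor
    · intro hL
      by_contra hd
      exact hdrift mu h hg (first_of_second h hm) hd hL
    · exact hcent mu h hg hm
  · intro mu h hg hm hs
    exact hcent mu h hg hm (mean_symm _ hs)
  · obtain ⟨mu, h1, h2, h3, h4, h5, h6⟩ := below_two theta hsurj fun mu' k1 k2 k3 => by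
      obtain ⟨mu, l1, l2, l3, l4⟩ := hlift mu' k1 k2 k3
      exact ⟨mu, l1, l2, l3, by rw [← image_push _ l1, l4]⟩
    exact ⟨mu, h1, h2, h3, mean_symm _ h3, h4, h5, h6⟩

end Pool.Agent.H34.CM
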