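import Pool.Agent.H34.CM.Defs
import Pool.Agent.H34.SM.R2
import Pool.Agent.H34.LS.W1

/-!
R1: truncation without symmetry which does not change the ball of radius `L` (up to the factor `1 / Z`). Copy of SM/R2 `truncate` with the finite set `s = s0 ∪ {g0} ∪ ball` (the ball of radius `L` of the word metric of the finite set `S` is finite: `ball_finite`).
-/

namespace Pool.Agent.H34.CM

open Pool.Agent.H34.LS Pool.Agent.H34.RP Pool.Agent.H34.SM

universe u

variable {G : Type u} [Group G]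

private theorem r1_finset {mu : G → ℝ} (h1 : HasSum mu 1) {δ : ℝ} (hδ : 0 < δ) (g0 : G) {S : Set G}
    (hSf : S.Finite) (hS : Subgroup.closure S = ⊤) (L : ℕ) :
    ∃ s : Finset G, (∀ g, wordLength S g ≤ L → g ∈ s) ∧ g0 ∈ s ∧ 1 - δ ≤ ∑ g ∈ s, mu g := by
  classical
  have h2 : ∀ᶠ s : Finset G in Filter.atTop, 1 - δ < ∑ g ∈ s, mu g :=
    h1.eventually (lt_mem_nhds (by linarith))
  obtain ⟨s0, hs0⟩ := Filter.eventually_atTop.1 h2
  obtain ⟨b, hb⟩ : ∃ b : Finset G, ∀ g, wordLength S g ≤ L → g ∈ b :=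
    ⟨(ball_finite hS hSf L).toFinset, fun g hg => by rw [Set.Finite.mem_toFinset]; exact hg⟩
  refine ⟨(s0 ∪ {g0}) ∪ b, fun g hg => Finset.mem_union_right _ (hb g hg), ?_, ?_⟩
  · exact Finset.mem_union_left _ (Finset.mem_union_right _ (Finset.mem_singleton_self g0))
  · refine (hs0 _ ?_).le
    exact Finset.subset_union_left.trans Finset.subset_union_left

theorem truncate2 {mu : G → ℝ} (h0 : ∀ g, 0 ≤ mu g) (h1 : HasSum mu 1) {S : Set G}
    (hSf : S.Finite) (hS : Subgroup.closure S = ⊤)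
    (hm : Summable fun g => mu g * (wordLength S g : ℝ) ^ 2) (g0 : G) {η : ℝ} (hη : 0 < η)
    (L : ℕ) :
    ∃ p : MonoidAlgebra ℝ G, PA p ∧
      (∃ Z : ℝ, 1 / 2 ≤ Z ∧ Z ≤ 1 ∧ ∀ g, wordLength S g ≤ L → p.coeff g = mu g / Z) ∧
      mom2 S p.coeff ≤ 2 * ∑' g, mu g * (wordLength S g : ℝ) ^ 2 ∧ mu g0 ≤ p.coeff g0 ∧
      ∀ (u : G → ℝ) (C : ℝ), (∀ x, |u x| ≤ C) →
        (∀ g, HasSum (fun h => mu h * u (g * h)) (u g)) → ∀ x, |avg p u x - u x| ≤ 2 * C * η := by
  classical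
  have hδ : 0 < min η (1 / 2) := lt_min hη (by norm_num)
  obtain ⟨s, hsy, hg0, hZ1⟩ := r1_finset h1 hδ g0 hSf hS L
  obtain ⟨Z, hZ⟩ : ∃ Z, Z = ∑ g ∈ s, mu g := ⟨_, rfl⟩
  rw [← hZ] at hZ1
  have hZle : Z ≤ 1 := by
    rw [hZ]
    exact sum_le_hasSum s (fun g _ => h0 g) h1
  have hZη : 1 - Z ≤ η := by
    have := min_le_left η (1 / 2)
    linarith
  have hZhalf : 1 / 2 ≤ Z := by
    have := min_le_right η (1 / 2)
    linarith
  have hZpos : 0 < Z := by linarith
  obtain ⟨f, hf⟩ : ∃ f : G → ℝ, f = fun g => if g ∈ s then mu g / Z else 0 := ⟨_, rfl⟩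
  have hfs : ∀ g, f g ≠ 0 → g ∈ s := by
    intro g hg
    by_contra hc
    rw [hf] at hg
    exact hg (if_neg hc)
  have hfin : ∀ g ∈ s, f g = mu g / Z := by
    intro g hg
    rw [hf]
    exact if_pos hg
  have hPA : PA (MonoidAlgebra.ofCoeff (Finsupp.onFinset s f hfs) : MonoidAlgebra ℝ G) := by
    refine ⟨fun g => ?_, ?_⟩
    · change 0 ≤ f g
      rw [hf]
      change 0 ≤ (if g ∈ s then mu g / Z else 0)
      split_ifs
      · exact div_nonneg (h0 g) hZpos.le
      · exact le_rfl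
    · change (Finsupp.onFinset s f hfs).sum (fun _ a => a) = 1
      rw [Finsupp.onFinset_sum _ (fun _ => rfl), Finset.sum_congr rfl hfin, ← Finset.sum_div, ← hZ,
        div_self hZpos.ne']
  refine ⟨MonoidAlgebra.ofCoeff (Finsupp.onFinset s f hfs), hPA,
    ⟨Z, hZhalf, hZle, fun g hg => hfin g (hsy g hg)⟩, ?_, ?_, ?_⟩
  · change (Finsupp.onFinset s f hfs).sum (fun g a => a * (wordLength S g : ℝ) ^ 2) ≤ _
    rw [Finsupp.onFinset_sum _ (fun _ => zero_mul _)]
    have h3 : ∑ g ∈ s, f g * (wordLength S g : ℝ) ^ 2 =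
        Z⁻¹ * ∑ g ∈ s, mu g * (wordLength S g : ℝ) ^ 2 := by
      rw [Finset.mul_sum]
      refine Finset.sum_congr rfl fun g hg => ?_
      rw [hfin g hg]
      ring
    rw [h3]
    have h4 : ∑ g ∈ s, mu g * (wordLength S g : ℝ) ^ 2 ≤ ∑' g, mu g * (wordLength S g : ℝ) ^ 2 :=
      hm.sum_le_tsum s fun g _ => mul_nonneg (h0 g) (by positivity)
    have h5 : 0 ≤ ∑ g ∈ s, mu g * (wordLength S g : ℝ) ^ 2 :=
      Finset.sum_nonneg fun g _ => mul_nonneg (h0 g) (by positivity)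
    have h6 : Z⁻¹ ≤ 2 := by
      rw [inv_le_comm₀ hZpos (by norm_num)]
      linarith
    calc Z⁻¹ * ∑ g ∈ s, mu g * (wordLength S g : ℝ) ^ 2
        ≤ 2 * ∑ g ∈ s, mu g * (wordLength S g : ℝ) ^ 2 := mul_le_mul_of_nonneg_right h6 h5
      _ ≤ _ := by linarith
  · change mu g0 ≤ f g0
    rw [hfin g0 hg0, le_div_iff₀ hZpos]
    calc mu g0 * Z ≤ mu g0 * 1 := mul_le_mul_of_nonneg_left hZle (h0 g0)
      _ = mu g0 := mul_one _
  · intro u C hu hh x
    have hC : 0 ≤ C := (abs_nonneg _).trans (hu 1)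
    obtain ⟨A, hA⟩ : ∃ A, A = avg (MonoidAlgebra.ofCoeff (Finsupp.onFinset s f hfs) : MonoidAlgebra ℝ G) u x :=
      ⟨_, rfl⟩
    have hAb : |A| ≤ C := by
      rw [hA]
      exact avg_bound hPA hu x
    have hAs : ∑ h ∈ s, mu h * u (x * h) = Z * A := by
      have h3 : A = ∑ h ∈ s, f h * u (x * h) := by
        rw [hA]
        unfold avg
        exact Finsupp.onFinset_sum hfs (fun _ => zero_mul _)
      rw [h3, Finset.mul_sum]
      refine Finset.sum_congr rfl fun h hh => ?_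
      rw [hfin h hh]
      field_simp
    have k1 : HasSum (fun h => if h ∈ s then mu h * u (x * h) else 0) (Z * A) := by
      have : HasSum (fun h => if h ∈ s then mu h * u (x * h) else 0)
          (∑ h ∈ s, if h ∈ s then mu h * u (x * h) else 0) :=
        hasSum_sum_of_ne_finset_zero (fun b hb => if_neg hb)
      rwa [Finset.sum_congr rfl (fun h hh => if_pos hh), hAs] at this
    have k2 : HasSum (fun h => if h ∈ s then mu h else 0) Z := by
      have : HasSum (fun h => if h ∈ s then mu h else 0) (∑ h ∈ s, if h ∈ s then mu h else 0) :=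
        hasSum_sum_of_ne_finset_zero (fun b hb => if_neg hb)
      rwa [Finset.sum_congr rfl (fun h hh => if_pos hh), ← hZ] at this
    have k3 := (hh x).sub k1
    have k4 := (h1.sub k2).mul_left C
    have k5 : ∀ h, |mu h * u (x * h) - (if h ∈ s then mu h * u (x * h) else 0)| ≤
        C * (mu h - if h ∈ s then mu h else 0) := by
      intro h
      split_ifs
      · simp
      · rw [sub_zero, sub_zero, abs_mul, abs_of_nonneg (h0 h), mul_comm]
        exact mul_le_mul_of_nonneg_right (hu _) (h0 h)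
    have k6 : u x - Z * A ≤ C * (1 - Z) := hasSum_le (fun h => (abs_le.1 (k5 h)).2) k3 k4
    have k7 : -(C * (1 - Z)) ≤ u x - Z * A := hasSum_le (fun h => (abs_le.1 (k5 h)).1) k4.neg k3
    rw [← hA]
    have k8 := abs_le.1 hAb
    have k9 : 0 ≤ 1 - Z := by linarith
    have k10 : C * (1 - Z) ≤ C * η := mul_le_mul_of_nonneg_left hZη hC
    have k11 : (1 - Z) * A ≤ (1 - Z) * C := mul_le_mul_of_nonneg_left k8.2 k9
    have k12 : (1 - Z) * (-C) ≤ (1 - Z) * A := mul_le_mul_of_nonneg_left k8.1 k9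
    rw [abs_le]
    constructor
    · nlinarith
    · nlinarith

end Pool.Agent.H34.CM
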